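import Pool.Agent.MP_5d9d0b_gt.M1.Side

/-!
Assembly of the two Legendrian surgeries.
-/

namespace Pool.Agent.MP_5d9d0b_gt.M1

open scoped Manifold ContDiff Real Topology
open Set Filter Complex

/-- The slope function of a toric map. -/
noncomputable def rr (c d : ℤ) : ℝ → ℝ := mob (-1) 3 (-c) d

/-- The toric maps, for `(c, d) = (4, 11)` and `(c, d) = (1, 2)`. -/
def Kr (c d : ℤ) (n x : S3) : Prop :=
  ∃ p ∈ {p : E3 | (c : ℝ) < d * p.2.2},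
    n = TP (mob 1 0 0 1) 1 0 0 1 p ∧ x = TP (rr c d) (-1) (-3) c d p

/-- Admissible data for `Kr`. -/
structure KD (c d : ℤ) : Prop where
  det : (d : ℝ) = 3 * c - 1
  one : (1 : ℝ) ≤ c

theorem kd1 : KD 4 11 := ⟨by norm_num, by norm_num⟩
theorem kd2 : KD 1 2 := ⟨by norm_num, by norm_num⟩

namespace KD
variable {c d : ℤ} (h : KD c d)
include h

theorem detZ : (-1 : ℤ) * d - (-3) * c = 1 := by
  have : (d : ℝ) = ((3 * c - 1 : ℤ) : ℝ) := by push_cast; exact h.det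
  have h2 : d = 3 * c - 1 := by exact_mod_cast this
  omega

theorem third {a : ℝ} (ha : (c : ℝ) < d * a) : 1 / 3 < a := by
  have h1 := h.one
  rw [h.det] at ha
  by_contra h2
  nlinarith [not_lt.1 h2]

theorem mem {a : ℝ} (ha : 3 / 5 ≤ a) : (c : ℝ) < d * a := by
  have h1 := h.one
  rw [h.det]; nlinarith

theorem two_le : (2 : ℝ) ≤ d / c := by
  have h1 := h.one
  rw [le_div_iff₀ (by linarith), h.det]; linarith

theorem mpos {a : ℝ} (ha : (c : ℝ) < d * a) : 0 < rr c d a :=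
  div_pos (by linarith [h.third ha]) (by linarith)

theorem lt_iff {a a' : ℝ} (ha : (c : ℝ) < d * a) (ha' : (c : ℝ) < d * a') :
    rr c d a < rr c d a' ↔ a' < a := by
  unfold rr mob
  rw [div_lt_div_iff₀ (by linarith) (by linarith), h.det]
  constructor <;> intro h1 <;> nlinarith

theorem le_iff {a a' : ℝ} (ha : (c : ℝ) < d * a) (ha' : (c : ℝ) < d * a') :
    rr c d a ≤ rr c d a' ↔ a' ≤ a := by
  rw [← not_lt, h.lt_iff ha' ha, not_lt]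

theorem crel : CRel alphaSt alphaSt (Kr c d) := by
  refine CRel.of_params (a := fun p v : E3 => p.2.2 * v.1 + v.2.1) ?_ (fun p hp => ?_)
    (fun p hp => ?_) ?_
  · exact isOpen_lt continuous_const (continuous_const.mul (continuous_snd.comp continuous_snd))
  · exact mob_lp (by norm_num) (by simp) (by have := h.third hp; simp only [zero_add, one_mul]; linarith)
      (by norm_num) fun v => by simp
  · have h1 : (c : ℝ) < d * p.2.2 := hp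
    refine mob_lp h.detZ (by linarith [h.third hp]) (by linarith) (by rw [h.det]; linarith)
      fun v => ?_
    push_cast
    rw [h.det]; ring
  · rintro ⟨φ, θ, a⟩ hp ⟨φ', θ', a'⟩ hp'
    have p1 : 0 < a := by linarith [h.third hp]
    have p2 : 0 < a' := by linarith [h.third hp']
    constructor
    · intro e
      obtain ⟨h1, h2, h3⟩ := TP_inj (by norm_num) (by rw [mobN]; exact inv_pos.2 p1)
        (by rw [mobN]; exact inv_pos.2 p2) e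
      rw [mobN, mobN, inv_inj] at h1
      exact TP_congr _ _ _ _ h2 h3 h1
    · intro e
      obtain ⟨h1, h2, h3⟩ := TP_inj h.detZ (h.mpos hp) (h.mpos hp') e
      exact TP_congr _ _ _ _ h2 h3 (le_antisymm ((h.le_iff hp' hp).1 h1.ge)
        ((h.le_iff hp hp').1 h1.le))

theorem rho {n x : S3} (hk : Kr c d n x) :
    ∃ a, 0 < a ∧ (c : ℝ) < d * a ∧ Rho a⁻¹ n ∧ Rho (rr c d a) x := by
  obtain ⟨p, hp, rfl, rfl⟩ := hk
  have p1 : 0 < p.2.2 := by linarith [h.third hp]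
  refine ⟨p.2.2, p1, hp, ?_, TP_rho _ _ _ _ (h.mpos hp).le⟩
  rw [← mobN]
  exact TP_rho _ _ _ _ (by rw [mobN]; exact (inv_pos.2 p1).le)

theorem not_ge {n x : S3} (hk : Kr c d n x) : ¬ Ge (d / c) n := by
  obtain ⟨a, h1, h2, h3, -⟩ := h.rho hk
  have h4 := h.one
  rw [h3.ge_iff, not_le, inv_eq_one_div, div_lt_div_iff₀ h1 (by linarith)]
  linarith

theorem dom {n : S3} (h1 : z2 n ≠ 0) (h2 : ¬ Ge (d / c) n) : ∃ x, Kr c d n x := by
  obtain ⟨ρ, h0, hρ⟩ := exists_rho (z1_ne_of_not_gt fun h3 => h2 h3.ge)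
  rw [hρ.ge_iff, not_le, lt_div_iff₀ (by linarith [h.one])] at h2
  have h3 : 0 < ρ := by
    refine lt_of_le_of_ne h0 fun h3 => h1 ?_
    have := hρ.2
    rw [← h3, zero_mul] at this
    exact normSq_eq_zero.1 this
  have h4 : Rho (mob 1 0 0 1 ρ⁻¹) n := by rwa [mobN, inv_inv]
  obtain ⟨q, z, rfl⟩ := TP_surj (a := 1) (b := 0) (c := 0) (d := 1) (by norm_num) h4
  refine ⟨_, (q, z, ρ⁻¹), ?_, rfl, rfl⟩
  show (c : ℝ) < d * ρ⁻¹
  rw [← div_eq_mul_inv, lt_div_iff₀ h3]; linarith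

theorem ran {x : S3} {ρ : ℝ} (hρ : Rho ρ x) (h1 : rr c d 16 ≤ ρ) : ∃ n, Kr c d n x := by
  have h0 := h.one
  have hd := h.det
  have h2 : 3 < d * ρ := by
    unfold rr mob at h1
    rw [div_le_iff₀ (by linarith [h.mem (a := 16) (by norm_num)])] at h1
    by_contra h3
    have h4 : ρ * c * d ≤ 3 * c := by nlinarith [not_lt.1 h3]
    nlinarith [not_lt.1 h3]
  have h3 : (c : ℝ) < d * ((c * ρ - 1) / (d * ρ - 3)) := by
    rw [← mul_div_assoc, lt_div_iff₀ (by linarith)]; nlinarith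
  have h4 : rr c d ((c * ρ - 1) / (d * ρ - 3)) = ρ := by
    unfold rr mob
    rw [div_eq_iff (by linarith)]
    have h5 : (c * ρ - 1) / (d * ρ - 3) * (d * ρ - 3) = c * ρ - 1 :=
      div_mul_cancel₀ _ (by linarith)
    linear_combination -h5
  rw [← h4] at hρ
  obtain ⟨q, z, rfl⟩ := TP_surj h.detZ hρ
  exact ⟨_, (q, z, _), h3, rfl, rfl⟩

theorem far {n x : S3} (hk : Kr c d n x) (h1 : ¬ Ge (rr c d 16) x) : ¬ Gt (1 / 16) n := by
  obtain ⟨a, h2, h3, h4, h5⟩ := h.rho hk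
  rw [h5.ge_iff, h.le_iff (h.mem (by norm_num)) h3, not_le] at h1
  rw [h4.gt_iff, not_lt, inv_le_comm₀ h2 (by norm_num)]
  linarith

end KD

theorem Kr_mk {c d : ℤ} {a : ℝ} (φ θ : ℝ) (h : (c : ℝ) < d * a) :
    Kr c d (Tor a⁻¹ φ θ) (Tor (rr c d a) (-φ - 3 * θ) (c * φ + d * θ)) :=
  ⟨(φ, θ, a), h, by simp [TP, mobN], by simp [TP, sub_eq_add_neg]⟩

/-- Properties of the twist map. -/
structure HD (Hm : S3 → S3 → Prop) : Prop where
  crel : CRel alphaSt alphaSt Hm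
  ne : ∀ n n1, Hm n n1 → z2 n ≠ 0 ∧ z2 n1 ≠ 0
  dom : ∀ n, z2 n ≠ 0 → (∃ n1, Hm n n1) ∧ ∃ n1, Hm n1 n
  fix : ∀ p : C3, 16 ≤ Complex.normSq p.1 → Hm (Sol1 p) (Sol1 p)
  near : ∀ (X : ℂ) (θ : ℝ), ‖X‖ ≤ 11 / 10 →
    Hm (Sol1 (X, θ)) (Sol1 (2 - X, θ + 2 * X.im)) ∧ Hm (Sol1 (2 - X, θ + 2 * X.im)) (Sol1 (X, θ))

namespace HD
variable {Hm : S3 → S3 → Prop} (h : HD Hm)
include h

theorem symm : HD (fun n n1 => Hm n1 n) :=
  ⟨h.crel.symm, fun n n1 e => (h.ne n1 n e).symm, fun n e => (h.dom n e).symm, h.fix,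
    fun X θ e => (h.near X θ e).symm⟩

theorem fix' {n n' : S3} (e : Hm n n') (h1 : ¬ Gt (1 / 16) n) : n' = n := by
  obtain ⟨p, rfl⟩ := Sol1_surj (h.ne _ _ e).1
  rw [Sol1_gt_iff] at h1
  exact h.crel.fun_r _ _ _ e (h.fix p (by linarith))

theorem small {n n' : S3} (e : Hm n n') (h1 : Gt (5 / 6) n) : ¬ Ge (5 / 4) n' := by
  obtain ⟨⟨X, θ⟩, rfl⟩ := Sol1_surj (h.ne _ _ e).1
  rw [Sol1_gt_iff, normSq_eq_norm_sq] at h1
  have h2 : ‖X‖ ≤ 11 / 10 := by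
    by_contra h3
    simp only at h1
    nlinarith [not_le.1 h3]
  rw [h.crel.fun_r _ _ _ e (h.near X θ h2).1, Sol1_ge_iff, normSq_eq_norm_sq, not_le]
  have h3 := norm_sub_norm_le (2 : ℂ) X
  have h4 : ‖(2 : ℂ)‖ = 2 := by simp
  simp only
  nlinarith

theorem exE {c d : ℤ} (k : KD c d) {n : S3} (h1 : Gt (5 / 6) n) :
    ∃ y n', Hm n n' ∧ Kr c d n' y := by
  obtain ⟨n', e⟩ := (h.dom n (h1.z2_ne (by norm_num))).1
  obtain ⟨y, hy⟩ := k.dom (h.ne _ _ e).2 fun h2 =>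
    h.small e h1 (h2.mono (by linarith [k.two_le]))
  exact ⟨y, n', e, hy⟩

end HD

/-- The data of the gluing, seen from one side. -/
structure SD (cA dA cB dB : ℤ) (Hm Tr : S3 → S3 → Prop) : Prop where
  kA : KD cA dA
  kB : KD cB dB
  hd : HD Hm
  tA : ∀ x y, Tr x y → ¬ Ge (rr cA dA 16) x
  tB : ∀ x y, Tr x y → ¬ Ge (rr cB dB 16) y
  eA : ∀ x, ¬ Ge (rr cA dA 16) x → ∃ y, Tr x y
  eB : ∀ y, ¬ Ge (rr cB dB 16) y → ∃ x, Tr x y

/-- The embedding of the model solid torus. -/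
def EE (Hm : S3 → S3 → Prop) (c d : ℤ) (n y : S3) : Prop := ∃ n', Hm n n' ∧ Kr c d n' y

/-- The complement of the removed solid torus. -/
def XX (Hm : S3 → S3 → Prop) (r : ℝ) (c d : ℤ) : Set S3 :=
  {y | ∃ n ∈ {n | Ge r n}, EE Hm c d n y}ᶜ

/-- The complement of a neighbourhood of the removed solid torus. -/
def CC (Hm : S3 → S3 → Prop) (c d : ℤ) : Set S3 :=
  {y | ∃ n ∈ {n | Gt (5 / 3) n}, EE Hm c d n y}ᶜ

/-- The gluing map. -/
def HH (cA dA cB dB : ℤ) (Hm Tr : S3 → S3 → Prop) (x y : S3) : Prop :=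
  (∃ n, Kr cA dA n x ∧ EE Hm cB dB n y) ∨ Tr x y

theorem HH_symm {cA dA cB dB : ℤ} {Hm Tr : S3 → S3 → Prop} {x y : S3} :
    HH cB dB cA dA (fun n n1 => Hm n1 n) (fun y x => Tr x y) y x ↔ HH cA dA cB dB Hm Tr x y := by
  constructor
  · rintro (⟨n, h1, n', h2, h3⟩ | h)
    exacts [Or.inl ⟨n', h3, n, h2, h1⟩, Or.inr h]
  · rintro (⟨n, h1, n', h2, h3⟩ | h)
    exacts [Or.inl ⟨n', h3, n, h2, h1⟩, Or.inr h]

namespace SD
variable {cA dA cB dB : ℤ} {Hm Tr : S3 → S3 → Prop} (h : SD cA dA cB dB Hm Tr)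
include h

theorem symm : SD cB dB cA dA (fun n n1 => Hm n1 n) (fun y x => Tr x y) :=
  ⟨h.kB, h.kA, h.hd.symm, fun y x => h.tB x y, fun y x => h.tA x y, h.eB, h.eA⟩

theorem crelE : CRel alphaSt alphaSt (EE Hm cB dB) := h.hd.crel.comp h.kB.crel

theorem isOpen_X : IsOpen (XX Hm (dA / cA) cB dB) := by
  have := nonemptyS3
  refine (h.crelE.isCompact_image (isClosed_Ge _).isCompact fun n hn => ?_).isClosed.isOpen_compl
  exact h.hd.exE h.kB (Ge.gt hn (by linarith [h.kA.two_le]))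

theorem isCompact_C : IsCompact (CC Hm cB dB) :=
  (h.crelE.isOpen_image (isOpen_Gt _)).isClosed_compl.isCompact

theorem C_sub : CC Hm cB dB ⊆ XX Hm (dA / cA) cB dB := fun _ hy ⟨n, h1, h2⟩ =>
  hy ⟨n, Ge.gt h1 (by linarith [h.kA.two_le]), h2⟩

theorem memX {x y : S3} (e : HH cA dA cB dB Hm Tr x y) : y ∈ XX Hm (dA / cA) cB dB := by
  rintro ⟨n, h1, h2⟩
  rcases e with ⟨m, h3, h4⟩ | e
  · obtain rfl := h.crelE.fun_l _ _ _ h2 h4
    exact h.kA.not_ge h3 h1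
  · obtain ⟨n', h3, h4⟩ := h2
    have h5 := h.kB.far h4 (h.tB _ _ e)
    obtain rfl := h.hd.symm.fix' h3 h5
    exact h5 (Ge.gt h1 (by linarith [h.kA.two_le]))

theorem domH {x : S3} (h1 : x ∈ XX (fun n n1 => Hm n1 n) (dB / cB) cA dA) (h2 : z1 x ≠ 0) :
    ∃ y, HH cA dA cB dB Hm Tr x y := by
  by_cases h3 : Ge (rr cA dA 16) x
  · obtain ⟨ρ, -, hρ⟩ := exists_rho h2
    rw [hρ.ge_iff] at h3
    obtain ⟨n, hn⟩ := h.kA.ran hρ h3
    obtain ⟨a, h4, -, h6, -⟩ := h.kA.rho hn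
    obtain ⟨n', e⟩ := (h.hd.dom n (h6.z2_ne (inv_pos.2 h4))).1
    obtain ⟨y, hy⟩ := h.kB.dom (h.hd.ne _ _ e).2 fun h8 => h1 ⟨n', h8, n, e, hn⟩
    exact ⟨y, Or.inl ⟨n, hn, n', e, hy⟩⟩
  · obtain ⟨y, hy⟩ := h.eA x h3
    exact ⟨y, Or.inr hy⟩

theorem nbhd {x : S3} (h1 : x ∈ XX (fun n n1 => Hm n1 n) (dB / cB) cA dA) :
    x ∈ {x | Gt (rr cA dA (3 / 5)) x} ∨ ∃ y, HH cA dA cB dB Hm Tr x y := by
  by_cases h2 : z1 x = 0
  · exact Or.inl (gt_of_z1 h2 _)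
  · exact Or.inr (h.domH h1 h2)

theorem sep {x y : S3} (e : HH cA dA cB dB Hm Tr x y)
    (h1 : Gt (rr cA dA (3 / 5)) x) (h2 : Gt (rr cB dB (3 / 5)) y) : False := by
  rcases e with ⟨n, h3, n', h4, h5⟩ | e
  · obtain ⟨a, a1, a2, a3, a4⟩ := h.kA.rho h3
    obtain ⟨b, b1, b2, b3, b4⟩ := h.kB.rho h5
    rw [a4.gt_iff, h.kA.lt_iff (h.kA.mem le_rfl) a2] at h1
    rw [b4.gt_iff, h.kB.lt_iff (h.kB.mem le_rfl) b2] at h2
    refine h.hd.small h4 ?_ ?_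
    · rw [a3.gt_iff, lt_inv_comm₀ (by norm_num) a1]; linarith
    · rw [b3.ge_iff, le_inv_comm₀ (by norm_num) b1]; linarith
  · exact h.tA _ _ e (h1.ge.mono ((h.kA.le_iff (h.kA.mem (by norm_num))
      (h.kA.mem le_rfl)).2 (by norm_num)))

theorem cover {x : S3} (h1 : x ∈ XX (fun n n1 => Hm n1 n) (dB / cB) cA dA) :
    x ∈ CC (fun n n1 => Hm n1 n) cA dA ∨ ∃ y ∈ CC Hm cB dB, HH cA dA cB dB Hm Tr x y := by
  by_cases h2 : x ∈ CC (fun n n1 => Hm n1 n) cA dA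
  · exact Or.inl h2
  · obtain ⟨n, h3, n', h4, h5⟩ := not_not.1 h2
    obtain ⟨y, hy⟩ := h.kB.dom (h.hd.ne _ _ h4).2 fun h8 => h1 ⟨n, h8, n', h4, h5⟩
    refine Or.inr ⟨y, ?_, Or.inl ⟨n', h5, n, h4, hy⟩⟩
    rintro ⟨m, h6, m', h7, h8⟩
    obtain rfl := h.kB.crel.fun_l _ _ _ h8 hy
    exact h.hd.small h7 (Gt.mono h6 (by norm_num)) ((Gt.ge h3).mono (by norm_num))

theorem surgery {M : Type} [TopologicalSpace M] [ChartedSpace R3 M]
    {α : (x : M) → TangentSpace (𝓡 3) x → ℝ} {iA iB : S3 → M}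
    (hA : CRel alphaSt α (fun x m => x ∈ XX (fun n n1 => Hm n1 n) (dB / cB) cA dA ∧ m = iA x))
    (hB : CRel alphaSt α (fun y m => y ∈ XX Hm (dA / cA) cB dB ∧ m = iB y))
    (hcov : ∀ m, (∃ x ∈ XX (fun n n1 => Hm n1 n) (dB / cB) cA dA, m = iA x) ∨
      ∃ y ∈ XX Hm (dA / cA) cB dB, m = iB y)
    (hAB : ∀ x ∈ XX (fun n n1 => Hm n1 n) (dB / cB) cA dA, ∀ y ∈ XX Hm (dA / cA) cB dB,
      (iA x = iB y ↔ HH cA dA cB dB Hm Tr x y))
    (hH : CRel alphaSt alphaSt (HH cA dA cB dB Hm Tr))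
    {ρM ρN : ℝ → ℝ} {a b c d a' b' c' d' : ℤ} (hM : TCol (1 / 10) ρM a b c d)
    (hN : TCol (1 / 10) ρN a' b' c' d') {In : S3 → S3 → Prop} (hIn : CRel alphaSt alphaSt In)
    (in1 : ∀ n x, In n x → Gt (ρN (-(1 / 10) / 2)) n ∧
      Gt (ρM (-(1 / 10) / 2 / (1 - -(1 / 10) / 2))) x)
    (in2 : ∀ n, Gt (ρN (-(1 / 10) / 2)) n → ∃ x, In n x)
    (in2' : ∀ x, Gt (ρM (-(1 / 10) / 2 / (1 - -(1 / 10) / 2))) x → ∃ n, In n x)
    (in3 : ∀ q z w : ℝ, -(1 / 10) < w → w < -(1 / 10) / 2 →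
      In (TP ρN a' b' c' d' (q, z, w)) (TP ρM a b c d (q + z, z, w / (1 - w))))
    (colK : ∀ q z w : ℝ, |w| < 1 / 10 →
      Kr cA dA (TP ρN a' b' c' d' (q, z, w)) (TP ρM a b c d (q, z, w)))
    (n1 : rr cA dA (6 / 5) ≤ ρM (1 / 10)) (n3 : 5 / 6 ≤ ρN (1 / 10)) :
    ∃ eE : S3 → S3, (∀ n, Gt (ρN (1 / 10)) n → EE Hm cB dB n (eE n)) ∧
      IsLegendrian (fun q : ℝ => eE (TP ρN a' b' c' d' (q, π, 0))) ∧
      IsMinusOneSurgery (range fun q : ℝ => eE (TP ρN a' b' c' d' (q, π, 0))) α := by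
  have := nonemptyS3
  obtain ⟨Λ, hΛ, o1, o2, o3, κ, δ, hκ, hδ, o4⟩ :=
    tube_lemma collar (by norm_num) le_rfl hN hM hIn in1 in2 in2' in3
  obtain ⟨eE, heE⟩ := h.crelE.exists_fun
  have heE' : ∀ n, Gt (ρN (1 / 10)) n → EE Hm cB dB n (eE n) := fun n hn => by
    obtain ⟨y, hy⟩ := h.hd.exE h.kB (hn.mono n3)
    exact (heE n y hy).1 ▸ hy
  have h00 : (0 : ℝ) ∈ Icc (-(1 / 10) : ℝ) (1 / 10) := by norm_num
  have hηη : (1 / 10 : ℝ) ∈ Icc (-(1 / 10) : ℝ) (1 / 10) := by norm_num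
  have hh : (1 / 10 / 2 : ℝ) ∈ Icc (-(1 / 10) : ℝ) (1 / 10) := by norm_num
  obtain ⟨a0, a1, a2, a3, a4⟩ := h.kA.rho (colK 0 0 (1 / 10 / 2) (by norm_num [abs_of_pos]))
  have a5 : a0⁻¹ = ρN (1 / 10 / 2) := a3.unique (hN.rho _ _ hh)
  have a6 : rr cA dA a0 = ρM (1 / 10 / 2) := a4.unique (hM.rho _ _ hh)
  have a7 : ρM (1 / 10) < ρM (1 / 10 / 2) := hM.anti hh hηη (by norm_num)
  have hgt : ∀ q, Gt (ρN (1 / 10)) (TP ρN a' b' c' d' (q, π, 0)) := fun q =>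
    (hN.gt_iff _ _ h00 hηη).2 (by norm_num)
  refine ⟨eE, heE', ?_, side17 M α iA iB _ _ _ hA hB hcov hAB hH (fun x y e => h.memX e) _
    (by norm_num) le_rfl _ _ _ _ _ _ _ _ _ _ hM hN Λ hΛ o1 o2 o3 κ δ hκ hδ o4 _ h.crelE eE heE'
    (fun q z w y hw e => Or.inl ⟨_, colK q z w hw, e⟩) ?_ ?_ ?_ ?_ ?_⟩
  · have l1 : ∀ q : ℝ, LP (E := E3) b1 alphaSt (eE ∘ TP ρN a' b' c' d') (q, π, 0) := fun q =>
      (hN.lp (q, π, 0) (by norm_num)).comp (heE _ _ (heE' _ (hgt q))).2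
    have l2 : ∀ q : ℝ, HasDerivAt (fun q : ℝ => ((q, π, 0) : E3)) (1, 0, 0) q := fun q =>
      (hasDerivAt_id q).prodMk (hasDerivAt_const q _)
    have l3 : ∀ q : ℝ, deriv (fun q : ℝ => ((eE (TP ρN a' b' c' d' (q, π, 0))).1 : R4)) q =
        fderiv ℝ (fun p => (((eE ∘ TP ρN a' b' c' d') p).1 : R4)) (q, π, 0) (1, 0, 0) := fun q => by
      have h1 := ((contDiffAt_coe (l1 q).contMDiffAt).differentiableAt (by simp)).hasFDerivAt
      exact (HasFDerivAt.comp_hasDerivAt q (f := fun q : ℝ => ((q, π, 0) : E3)) h1 (l2 q)).deriv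
    refine ⟨⟨contDiff_iff_contDiffAt.2 fun q => ?_, fun q => ?_, fun s t => ?_⟩, fun q => ?_⟩
    · exact (contDiffAt_coe (l1 q).contMDiffAt).comp q (f := fun q : ℝ => ((q, π, 0) : E3))
        (by fun_prop)
    · rw [l3]
      intro e
      have := (l1 q).inj_fderiv (e.trans (map_zero _).symm)
      simp at this
    · constructor
      · intro e
        simp only at e
        have e' := h.crelE.fun_l _ _ _ (heE' _ (hgt s))
          (show EE Hm cB dB _ (eE (TP ρN a' b' c' d' (s, π, 0))) by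
            rw [e]; exact heE' _ (hgt t))
        exact (hN.inj h00 h00 e').2.1
      · intro e
        exact congrArg eE (TP_congr _ _ _ _ e ⟨0, by simp⟩ rfl)
    · rw [l3]
      obtain ⟨c, -, hc⟩ := (l1 q).2
      have := hc (1, 0, 0)
      rw [alphaSt_param (l1 q).contMDiffAt] at this
      simpa [b1] using this
  · rintro x hx ⟨n, h1, n', h2, h3⟩
    obtain ⟨a, b1, b2, b3, b4⟩ := h.kA.rho h3
    rw [b4.gt_iff] at hx
    have h4 := (h.kA.lt_iff (h.kA.mem (a := 6 / 5) (by norm_num)) b2).1 (lt_of_le_of_lt n1 hx)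
    refine h.hd.small h2 ?_ (Ge.mono h1 (by linarith [h.kB.two_le]))
    rw [b3.gt_iff, lt_inv_comm₀ (by norm_num) b1]; linarith
  · intro y hy
    obtain ⟨n, h1, h2⟩ := not_not.1 hy
    refine ⟨n, Ge.mono h1 ?_, h2⟩
    rw [← a5, inv_eq_one_div, div_le_div_iff₀ a1 (by linarith [h.kA.one])]
    linarith
  · intro y hy n h1 h2
    have h3 : Gt 0 n := h1.gt (hN.pos _ hh)
    obtain ⟨x, hx⟩ := h.kA.dom (h3.z2_ne le_rfl) fun h4 => hy ⟨n, h4, h2⟩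
    refine ⟨x, ?_, Or.inl ⟨n, hx, h2⟩⟩
    obtain ⟨a, b1, b2, b3, b4⟩ := h.kA.rho hx
    rw [b3.ge_iff, ← a5, inv_le_inv₀ a1 b1] at h1
    rw [b4.gt_iff]
    have := (h.kA.le_iff a2 b2).2 h1
    linarith
  · intro x hx h1
    exact h.domH hx (z1_ne_of_not_gt h1)
  · rintro x y (⟨n, h1, h2⟩ | e) h3
    · refine ⟨n, ?_, h2⟩
      obtain ⟨a, b1, b2, b3, b4⟩ := h.kA.rho h1
      rw [b4.ge_iff, ← a6, h.kA.le_iff a2 b2] at h3
      rw [b3.ge_iff, ← a5, inv_le_inv₀ a1 b1]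
      exact h3
    · refine absurd (h3.mono ?_) (h.tA _ _ e)
      have := (h.kA.le_iff (a := 16) (a' := 6 / 5) (h.kA.mem (by norm_num))
        (h.kA.mem (by norm_num))).2 (by norm_num)
      linarith

theorem emb {eE : S3 → S3} {r : ℝ} (hr : 0 < r) (heE : ∀ n, Gt r n → EE Hm cB dB n (eE n)) :
    Emb r⁻¹ (eE ∘ Sol1) := by
  have h1 : ∀ p : C3, normSq p.1 < r⁻¹ → Gt r (Sol1 p) := fun p hp => by
    rw [Sol1_gt_iff, ← lt_inv_mul_iff₀ hr, mul_one]; exact hp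
  refine ⟨fun p hp => ?_, fun p p' hp hp' => ?_⟩
  · have h2 : LP (E := C3) b0 alphaSt (eE ∘ Sol1) p := by
      refine (Sol1_lp p).rel h.crelE ?_
      filter_upwards [(Sol1_lp p).continuousAt.eventually ((isOpen_Gt r).mem_nhds (h1 p hp))]
        with x hx
      exact heE _ hx
    exact ⟨contDiffAt_coe h2.contMDiffAt, h2.inj_fderiv⟩
  · rw [← ex_eq_iff, ← Sol1_eq_iff]
    refine ⟨fun e => ?_, fun e => congrArg eE e⟩
    exact h.crelE.fun_l _ _ _ (heE _ (h1 p hp))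
      (show EE Hm cB dB _ ((eE ∘ Sol1) p) by rw [e]; exact heE _ (h1 p' hp'))

end SD

end Pool.Agent.MP_5d9d0b_gt.M1
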