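import Pool.Agent.MP_5d9d0b_gt.St

/-!
Legendrian surgery, that is contact `(-1)`-surgery, in the Weinstein handle model.
-/

namespace Pool.Agent.MP_5d9d0b_gt.St

open Set

/-- `(M, ker α)` is contact `(-1)`-surgery (Legendrian surgery) on the Legendrian knot `L` in the
standard sphere: there are standard neighbourhoods `j` of `L` in the sphere (attaching side of the
Weinstein handle) and `j'` of the belt circle `core j'` in `M` (belt side), and a contactomorphism
`S³ ∖ L → M ∖ core j'` which near `L` is given by the Liouville flow of the handle. -/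
def IsMinusOneSurgery {M : Type} [TopologicalSpace M] [ChartedSpace R3 M] (L : Set S3)
    (α : M → R3 → ℝ) : Prop :=
  ∃ (δ δ' : ℝ) (j : R3 → S3) (j' : R3 → M) (Φ : S3 → M),
    0 < δ ∧ 0 < δ' ∧ StdNbhd att alphaSt δ j ∧ StdNbhd belt α δ' j' ∧ core j = L ∧
    DiffeoOn R3 Φ Lᶜ (core j')ᶜ ∧ (∀ x ∉ L, ContactAt R3 alphaSt α Φ x) ∧
    ∀ p ∈ tube δ, ∀ p' ∈ tube δ', ∀ t : ℝ, handleFlow t (att p) = belt p' → Φ (j p) = j' p'

end Pool.Agent.MP_5d9d0b_gt.St
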