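import Pool.Agent.MP_5d9d0b_gt.M1.Fin
import Pool.Agent.MP_5d9d0b_gt.M1.St

/-!
Passage from the working definitions to the definitions of the statement.
-/

namespace Pool.Agent.MP_5d9d0b_gt.M1

open scoped Manifold ContDiff Real
open Set

theorem st_surgery {M : Type} [TopologicalSpace M] [ChartedSpace R3 M] {L : Set S3}
    {α : (x : M) → TangentSpace (𝓡 3) x → ℝ} (h : IsMinusOneSurgery L α) :
    St.IsMinusOneSurgery (M := M) L α := by
  obtain ⟨δ, δ', j, j', Φ, h1, h2, h3, h4, h5, h6, h7, h8, h9⟩ := h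
  refine ⟨δ, δ', j, j', Φ, h1, h2, st_nbhd h3, st_nbhd h4, h5, ⟨Φ, h6, h7, fun _ _ => rfl⟩,
    fun x hx => h8 x ?_, h9⟩
  rw [h6]; exact hx

theorem st_main :
    ∃ L L' : ℝ → St.S3, St.IsLegendrian L ∧ St.IsLegendrian L' ∧ St.IsTorusKnot 3 (-11) L ∧
      ¬ St.Isotopic L' L ∧
      ∃ (M : Type) (_ : TopologicalSpace M) (_ : T2Space M) (_ : CompactSpace M)
        (_ : ChartedSpace St.R3 M) (_ : IsManifold (𝓡 3) ∞ M) (α : M → St.R3 → ℝ),
        St.IsContact α ∧ St.IsMinusOneSurgery (Set.range L) α ∧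
          St.IsMinusOneSurgery (Set.range L') α := by
  obtain ⟨L, L', h1, h2, h3, h4, M, i1, i2, i3, i4, i5, α, h5, h6, h7⟩ := main
  exact ⟨L, L', h1, h2, h3, h4, M, i1, i2, i3, i4, i5, α, st_contact h5, st_surgery h6,
    st_surgery h7⟩

end Pool.Agent.MP_5d9d0b_gt.M1
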