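import Pool.Agent.MP_5d9d0b_gt.M1.Spec

/-!
Row FF: the map from the sphere to the base of the dihedral covering.
-/

namespace Pool.Agent.MP_5d9d0b_gt.M1

open scoped Real Topology ComplexConjugate
open Set Complex

namespace Ff

/-- The direction of a number that is not small. -/
noncomputable def wn (z : ℂ) : ℂ := z / (max ‖z‖ (1 / 2) : ℝ)

/-- The radial parameter. -/
noncomputable def ah (u v : ℝ) : ℝ :=
  max (v - u) (1 / 5) / max (2 * v - 3 * u) (max (v - u) (1 / 5) / 10)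

/-- The first auxiliary number. -/
noncomputable def xx (a : ℝ) (w1 w2 : ℂ) : ℂ := (√a : ℝ) * w1 ^ 2 * w2 ^ 3

/-- The second coordinate. -/
noncomputable def ss (a : ℝ) (w1 w2 : ℂ) : ℂ := (√a : ℝ) * conj w1 ^ 2 - 2 * w2 ^ 3

/-- A continuous argument. -/
noncomputable def ag (z : ℂ) : ℝ := arg ((max z.re (1 / 2) : ℝ) + z.im * I)

/-- The first coordinate. -/
noncomputable def vv (a : ℝ) (w1 w2 : ℂ) : ℂ :=
  -(r17 (max 0 (1 - normSq (ss a w1 w2)) / 6) : ℝ) * conj (w1 * w2) *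
    ex ((6 * ag (xx a w1 w2) + 10 * (xx a w1 w2).im) / 17)

/-- The map. -/
noncomputable def ff (x : S3) : ℂ × ℂ :=
  (vv (ah (normSq (z1 x)) (normSq (z2 x))) (wn (z1 x)) (wn (z2 x)),
    ss (ah (normSq (z1 x)) (normSq (z2 x))) (wn (z1 x)) (wn (z2 x)))

theorem cont_wn : Continuous wn := by
  refine continuous_id.div (by fun_prop) fun z => ?_
  exact ofReal_ne_zero.2 (lt_of_lt_of_le (by norm_num) (le_max_right _ _)).ne'

theorem den_pos (u v : ℝ) : 0 < max (2 * v - 3 * u) (max (v - u) (1 / 5) / 10) := by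
  have := le_max_right (v - u) (1 / 5 : ℝ)
  exact lt_of_lt_of_le (by linarith) (le_max_right _ _)

theorem cont_ag : Continuous ag := by
  refine continuous_iff_continuousAt.2 fun z => ?_
  have h : Continuous fun z : ℂ => ((max z.re (1 / 2) : ℝ) : ℂ) + z.im * I := by fun_prop
  refine ContinuousAt.comp (g := arg) (continuousAt_arg (Or.inl ?_)) h.continuousAt
  have := le_max_right z.re (1 / 2 : ℝ)
  simp only [add_re, ofReal_re, mul_re, I_re, ofReal_im, I_im, mul_zero, zero_mul, sub_zero,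
    add_zero]
  linarith

theorem cont_r17 : Continuous r17 := Real.continuous_rpow_const (by positivity)

theorem cont_ff : Continuous ff := by
  have h1 := continuous_z1
  have h2 := continuous_z2
  have h3 : Continuous fun x : S3 => normSq (z1 x) := continuous_normSq.comp h1
  have h4 : Continuous fun x : S3 => normSq (z2 x) := continuous_normSq.comp h2
  have ha : Continuous fun x : S3 => ah (normSq (z1 x)) (normSq (z2 x)) :=
    Continuous.div (by fun_prop) (by fun_prop) fun x => (den_pos _ _).ne'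
  have w1 : Continuous fun x : S3 => wn (z1 x) := cont_wn.comp h1
  have w2 : Continuous fun x : S3 => wn (z2 x) := cont_wn.comp h2
  have hs : Continuous fun x : S3 =>
      ss (ah (normSq (z1 x)) (normSq (z2 x))) (wn (z1 x)) (wn (z2 x)) := by
    unfold ss
    fun_prop
  have hx : Continuous fun x : S3 =>
      xx (ah (normSq (z1 x)) (normSq (z2 x))) (wn (z1 x)) (wn (z2 x)) := by
    unfold xx
    fun_prop
  have hg := cont_ag.comp hx
  have hn := continuous_normSq.comp hs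
  refine Continuous.prodMk ?_ hs
  refine ((continuous_ofReal.comp (cont_r17.comp ?_)).neg.mul (by fun_prop)).mul
    (contDiff_ex.continuous.comp ?_)
  · exact (continuous_const.max (continuous_const.sub hn)).div_const _
  · exact ((continuous_const.mul hg).add
      (continuous_const.mul (continuous_im.comp hx))).div_const _

theorem norm_wn (z : ℂ) : ‖wn z‖ ≤ 1 := by
  have h : (0 : ℝ) < max ‖z‖ (1 / 2) := lt_of_lt_of_le (by norm_num) (le_max_right _ _)
  rw [wn, norm_div, norm_real, Real.norm_of_nonneg h.le, div_le_one h]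
  exact le_max_left _ _

theorem norm_wn_eq {z : ℂ} (h : 1 / 4 ≤ normSq z) : ‖wn z‖ = 1 := by
  have h1 : 1 / 2 ≤ ‖z‖ := by
    rw [normSq_eq_norm_sq] at h
    exact le_of_sq_le_sq (by linarith) (norm_nonneg _)
  rw [wn, max_eq_left h1, norm_div, norm_real, norm_norm, div_self (by linarith)]

theorem wn_ex {c : ℝ} (hc : 0 < c) (h : 1 / 4 ≤ c ^ 2) (s : ℝ) : wn (c * ex s) = ex s := by
  have h1 : 1 / 2 ≤ c := le_of_sq_le_sq (by linarith) hc.le
  have h2 : (c : ℂ) ≠ 0 := ofReal_ne_zero.2 hc.ne'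
  rw [wn, norm_mul, norm_ex, norm_real, Real.norm_of_nonneg hc.le, mul_one, max_eq_left h1,
    mul_div_cancel_left₀ _ h2]

theorem tube {a : ℝ} (h1 : 1 ≤ a) (h2 : a ≤ 10) (s t : ℝ) :
    ff (Tor (mob (-1) 3 (-1) 2 a) s t) = (vv a (ex s) (ex t), ss a (ex s) (ex t)) := by
  obtain ⟨ρ, hρ⟩ : ∃ ρ, ρ = mob (-1) 3 (-1) 2 a := ⟨_, rfl⟩
  have d1 : 0 < -1 + 2 * a := by linarith
  have d2 : 0 < 5 * a - 2 := by linarith
  have e : ρ * (-1 + 2 * a) = -1 + 3 * a := by rw [hρ, mob, div_mul_cancel₀ _ d1.ne']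
  have r0 : 0 < ρ := by rw [hρ, mob]; exact div_pos (by linarith) d1
  rw [← hρ]
  obtain ⟨c, hc, e1, e2⟩ := Tor_spec ρ s t
  have n1 : normSq (z1 (Tor ρ s t)) = c ^ 2 := by
    rw [e1, map_mul, normSq_ex, normSq_ofReal]; ring
  have n2 : normSq (z2 (Tor ρ s t)) = c ^ 2 * ρ := by
    rw [e2, map_mul, normSq_sqrt_ex r0.le, normSq_ofReal]; ring
  have n3 := normSq_add (Tor ρ s t)
  rw [n1, n2] at n3
  have c1 : c ^ 2 = (2 * a - 1) / (5 * a - 2) := by
    rw [eq_div_iff d2.ne']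
    linear_combination (-1 + 2 * a) * n3 - c ^ 2 * e
  have c2 : c ^ 2 * ρ = (3 * a - 1) / (5 * a - 2) := by
    rw [eq_div_iff d2.ne']
    rw [eq_div_iff d2.ne'] at c1
    linear_combination (5 * a - 2) * n3 - c1
  have w1 : wn (z1 (Tor ρ s t)) = ex s := by
    rw [e1]
    refine wn_ex hc ?_ s
    rw [c1, le_div_iff₀ d2]
    linarith
  have w2 : wn (z2 (Tor ρ s t)) = ex t := by
    rw [e2, ← mul_assoc, ← ofReal_mul]
    refine wn_ex (mul_pos hc (Real.sqrt_pos.2 r0)) ?_ t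
    rw [mul_pow, Real.sq_sqrt r0.le, c2, le_div_iff₀ d2]
    linarith
  have ha : ah (normSq (z1 (Tor ρ s t))) (normSq (z2 (Tor ρ s t))) = a := by
    have k1 : (3 * a - 1) / (5 * a - 2) - (2 * a - 1) / (5 * a - 2) = a / (5 * a - 2) := by
      rw [← sub_div]; congr 1; ring
    have k2 : 2 * ((3 * a - 1) / (5 * a - 2)) - 3 * ((2 * a - 1) / (5 * a - 2)) =
        1 / (5 * a - 2) := by
      rw [← mul_div_assoc, ← mul_div_assoc, ← sub_div]; congr 1; ring
    have k3 : 1 / 5 ≤ a / (5 * a - 2) := by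
      rw [le_div_iff₀ d2]; linarith
    have k4 : a / (5 * a - 2) / 10 ≤ 1 / (5 * a - 2) := by
      rw [div_right_comm]
      exact div_le_div_of_nonneg_right (by linarith) d2.le
    rw [n2, n1, c2, c1, ah, k1, k2, max_eq_left k3, max_eq_left k4,
      div_div_div_cancel_right₀ d2.ne', div_one]
  rw [ff, ha, w1, w2]

theorem ex_pow (n : ℕ) (t : ℝ) : ex t ^ n = ex (n * t) := by
  rw [ex, ex, ← Complex.exp_nat_mul]
  congr 1
  push_cast
  ring

theorem cj (t : ℝ) : conj (ex t) = ex (-t) := by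
  apply Complex.ext <;> simp [ex_re, ex_im]

theorem ss_eq (a s t : ℝ) : ss a (ex s) (ex t) = -(ex t ^ 3 * conj (2 - xx a (ex s) (ex t))) := by
  have h : ex t * conj (ex t) = 1 := by rw [cj, ← ex_add, add_neg_cancel, ex_zero]
  simp only [ss, xx, map_sub, map_mul, map_pow, conj_ofReal, map_ofNat]
  linear_combination (-((√a : ℝ) : ℂ) * conj (ex s) ^ 2 *
    ((ex t * conj (ex t)) ^ 2 + ex t * conj (ex t) + 1)) * h

theorem xx_eq (a s t : ℝ) : xx a (ex s) (ex t) = (√a : ℝ) * ex (2 * s + 3 * t) := by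
  rw [xx, ex_pow, ex_pow, mul_assoc, ← ex_add]
  norm_num

theorem clause3 (p : ℂ × ℝ) (hp : ‖p.1‖ ≤ 1) : ff (PP p) = FT p := by
  obtain ⟨X, θ⟩ := p
  simp only at hp
  have n1 : 1 ≤ ‖2 - X‖ := by
    have := norm_sub_norm_le (2 : ℂ) X
    rw [Complex.norm_two] at this
    linarith
  have n2 : ‖2 - X‖ ≤ 3 := by
    have := norm_sub_le (2 : ℂ) X
    rw [Complex.norm_two] at this
    linarith
  have hq : normSq X ≤ 1 := by rw [normSq_eq_norm_sq]; nlinarith [norm_nonneg X]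
  rw [PP, tube (by rw [normSq_eq_norm_sq]; nlinarith) (by rw [normSq_eq_norm_sq]; nlinarith)]
  simp only
  have hx : xx (normSq (2 - X)) (ex (-arg (2 - X) - 3 * (θ + 2 * X.im)))
      (ex (arg (2 - X) + 2 * (θ + 2 * X.im))) = 2 - X := by
    rw [xx_eq, normSq_eq_norm_sq, Real.sqrt_sq (norm_nonneg _)]
    refine Eq.trans ?_ (ex_surj (2 - X)).symm
    congr 2
    ring
  have hs : ss (normSq (2 - X)) (ex (-arg (2 - X) - 3 * (θ + 2 * X.im)))
      (ex (arg (2 - X) + 2 * (θ + 2 * X.im))) =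
        -(ex (arg (2 - X) + 2 * (θ + 2 * X.im)) ^ 3 * conj X) := by
    rw [ss_eq, hx, sub_sub_cancel]
  have hg : ag (2 - X) = arg (2 - X) := by
    have h1 := (abs_le.1 ((abs_re_le_norm X).trans hp)).2
    have h2 : (1 / 2 : ℝ) ≤ (2 - X).re := by
      simp only [sub_re, re_ofNat]
      linarith
    rw [ag, max_eq_left h2, re_add_im]
  refine Prod.ext ?_ ?_
  · simp only [FT, vv]
    rw [hs, hx, hg, normSq_neg, map_mul, map_pow, normSq_ex, one_pow, one_mul, normSq_conj,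
      max_eq_right (by linarith), ← ex_add, cj, ex_pow, mul_assoc, mul_assoc, ← ex_add, ← ex_add]
    congr 2
    simp only [ps, sub_im, im_ofNat]
    push_cast
    ring
  · simp only [FT]
    rw [hs, ex_pow, ex_pow, neg_mul, mul_assoc, ← ex_add, mul_comm]
    congr 3
    simp only [ps]
    push_cast
    ring

theorem small {a : ℝ} {w1 w2 : ℂ} (h1 : ‖w1‖ ≤ 1) (h2 : ‖w2‖ ≤ 1)
    (h : ss a w1 w2 ^ 2 = 4 * vv a w1 w2 ^ 17) : ‖ss a w1 w2‖ < 1 := by
  by_contra c
  have c1 : 1 ≤ normSq (ss a w1 w2) := by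
    rw [normSq_eq_norm_sq]
    nlinarith [not_lt.1 c]
  have e : vv a w1 w2 = 0 := by
    rw [vv, max_eq_left (by linarith), zero_div, r17, Real.zero_rpow (by positivity)]
    simp
  rw [e, zero_pow (by norm_num), mul_zero, pow_eq_zero_iff (by norm_num)] at h
  rw [h] at c
  simp at c

theorem ss_ge (a : ℝ) (w1 w2 : ℂ) : √a * ‖w1‖ ^ 2 - 2 * ‖w2‖ ^ 3 ≤ ‖ss a w1 w2‖ ∧
    2 * ‖w2‖ ^ 3 - √a * ‖w1‖ ^ 2 ≤ ‖ss a w1 w2‖ := by
  have h := abs_le.1 (abs_norm_sub_norm_le (((√a : ℝ) : ℂ) * conj w1 ^ 2) (2 * w2 ^ 3))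
  simp only [norm_mul, norm_pow, norm_real, Real.norm_of_nonneg (Real.sqrt_nonneg a),
    Complex.norm_two, RCLike.norm_conj] at h
  rw [ss]
  constructor <;> linarith [h.1, h.2]

theorem clause2 (x : S3) (h : (ff x).2 ^ 2 = 4 * (ff x).1 ^ 17) :
    ∃ p : ℂ × ℝ, ‖p.1‖ ≤ 1 ∧ x = PP p := by
  have hs := small (norm_wn _) (norm_wn _) h
  have n3 := normSq_add x
  have u0 := normSq_nonneg (z1 x)
  obtain ⟨a, ha⟩ : ∃ a, a = ah (normSq (z1 x)) (normSq (z2 x)) := ⟨_, rfl⟩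
  have hd := den_pos (normSq (z1 x)) (normSq (z2 x))
  have hN := le_max_right (normSq (z2 x) - normSq (z1 x)) (1 / 5 : ℝ)
  have a0 : 0 < a := by rw [ha, ah]; exact div_pos (by linarith) hd
  have sa := Real.sqrt_nonneg a
  have sb := Real.sq_sqrt a0.le
  rw [← ha] at hs
  obtain ⟨g1, g2⟩ := ss_ge a (wn (z1 x)) (wn (z2 x))
  have b1 : ‖wn (z1 x)‖ ^ 2 ≤ 1 := pow_le_one₀ (norm_nonneg _) (norm_wn _)
  have b2 : ‖wn (z2 x)‖ ^ 3 ≤ 1 := pow_le_one₀ (norm_nonneg _) (norm_wn _)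
  have lo : 1 / 4 ≤ normSq (z2 x) → 1 < a := fun c => by
    rw [norm_wn_eq c] at g2
    have : √a * ‖wn (z1 x)‖ ^ 2 ≤ √a := mul_le_of_le_one_right sa b1
    nlinarith
  have u1 : 1 / 4 ≤ normSq (z1 x) := by
    by_contra c
    have c' := not_le.1 c
    refine absurd (lo (by linarith)) (not_lt.2 ?_)
    rw [ha, ah, div_le_one hd, max_eq_left (by linarith : (1 / 5 : ℝ) ≤ _)]
    exact le_trans (by linarith) (le_max_left _ _)
  have hi : a < 9 := by
    rw [norm_wn_eq u1] at g1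
    nlinarith
  have hm : max (normSq (z2 x) - normSq (z1 x)) (1 / 5) / 10 <
      2 * normSq (z2 x) - 3 * normSq (z1 x) := by
    by_contra c
    rw [ah, max_eq_right (not_lt.1 c), div_div_cancel₀ (by linarith)] at ha
    linarith
  have v1 : 3 / 5 < normSq (z2 x) := by linarith
  have a1 := lo (by linarith)
  have hd2 : 0 < 2 * normSq (z2 x) - 3 * normSq (z1 x) := by linarith
  rw [ah, max_eq_left hm.le, max_eq_left (by linarith), eq_div_iff hd2.ne'] at ha
  have hR : Rho (mob (-1) 3 (-1) 2 a) x := by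
    refine ⟨normSq_pos.1 (by linarith), ?_⟩
    rw [mob, div_mul_eq_mul_div, eq_div_iff (by linarith)]
    linear_combination ha
  obtain ⟨s, t, e⟩ := hR.tor
  have hs' : ‖ss a (ex s) (ex t)‖ < 1 := by
    refine small (norm_ex _).le (norm_ex _).le ?_
    rwa [e, tube a1.le (by linarith)] at h
  rw [ss_eq, norm_neg, norm_mul, norm_pow, norm_ex, one_pow, one_mul, RCLike.norm_conj,
    xx_eq] at hs'
  refine ⟨(2 - (√a : ℝ) * ex (2 * s + 3 * t),
    -(s + t) - 2 * (2 - (√a : ℝ) * ex (2 * s + 3 * t)).im), hs'.le, e.trans ?_⟩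
  have sp : ((√a : ℝ) : ℂ) ≠ 0 := ofReal_ne_zero.2 (Real.sqrt_pos.2 a0).ne'
  have k : ex (arg ((√a : ℝ) * ex (2 * s + 3 * t))) = ex (2 * s + 3 * t) := by
    have := ex_surj ((√a : ℝ) * ex (2 * s + 3 * t))
    rw [norm_mul, norm_ex, norm_real, Real.norm_of_nonneg sa, mul_one] at this
    exact (mul_left_cancel₀ sp this).symm
  simp only [PP, sub_sub_cancel, sub_add_cancel]
  refine Tor_congr (by rw [normSq_sqrt_ex a0.le]) ?_ ?_
  · rw [sub_eq_add_neg, ex_add, ex_neg, k, ← ex_neg, ← ex_add]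
    congr 1
    ring
  · rw [ex_add, k, ← ex_add]
    congr 1
    ring

end Ff

theorem ff17 : FStmt := ⟨Ff.ff, Ff.cont_ff, Ff.clause2, Ff.clause3⟩

end Pool.Agent.MP_5d9d0b_gt.M1
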