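import Pool.Agent.MP_5d9d0b_gt.M1.Spec

/-!
The half twist about `x = 1` and the knot type of the surgery curve.
-/

namespace Pool.Agent.MP_5d9d0b_gt.M1

open scoped Manifold ContDiff Real Topology
open Set Filter Complex
open HH (tr contDiff_ns contDiff_tr tr_tr bij_of_inv tr_lp)

namespace HhA

/-- The generating function of the twist. -/
noncomputable def hh (s : ℝ) : ℝ := π * s * Real.smoothTransition (6 - s)

theorem contDiff_hh : ContDiff ℝ ∞ hh := by
  unfold hh
  exact (contDiff_const.mul contDiff_id).mul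
    (Real.smoothTransition.contDiff.comp (contDiff_const.sub contDiff_id))

theorem contDiff_h1 : ContDiff ℝ ∞ (deriv hh) := (contDiff_infty_iff_deriv.1 contDiff_hh).2

theorem hh_in {s : ℝ} (hs : s < 5) : hh s = π * s ∧ deriv hh s = π := by
  have h : hh =ᶠ[𝓝 s] fun t => π * t := by
    filter_upwards [Iio_mem_nhds hs] with t ht
    rw [hh, Real.smoothTransition.one_of_one_le (by linarith [mem_Iio.1 ht]), mul_one]
  refine ⟨h.self_of_nhds, ?_⟩
  rw [h.deriv_eq]
  simpa using ((hasDerivAt_id s).const_mul π).deriv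

theorem hh_out {s : ℝ} (hs : 6 < s) : hh s = 0 ∧ deriv hh s = 0 := by
  have h : hh =ᶠ[𝓝 s] fun _ => 0 := by
    filter_upwards [Ioi_mem_nhds hs] with t ht
    rw [hh, Real.smoothTransition.zero_of_nonpos (by linarith [mem_Ioi.1 ht]), mul_zero]
  exact ⟨h.self_of_nhds, by rw [h.deriv_eq, deriv_const]⟩

/-- The twist about the origin. -/
noncomputable def tw (e : ℝ) (p : C3) : C3 :=
  (ex (e * deriv hh (normSq p.1)) * p.1,
    p.2 + e * (hh (normSq p.1) - normSq p.1 * deriv hh (normSq p.1)))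

theorem contDiff_tw (e : ℝ) : ContDiff ℝ ∞ (tw e) := by
  have h1 := contDiff_h1.comp contDiff_ns
  have h0 := contDiff_hh.comp contDiff_ns
  exact ((contDiff_ex.comp (contDiff_const.mul h1)).mul contDiff_fst).prodMk
    (contDiff_snd.add (contDiff_const.mul (h0.sub (contDiff_ns.mul h1))))

theorem tw_tw (e : ℝ) (p : C3) : tw (-e) (tw e p) = p := by
  have h : normSq (tw e p).1 = normSq p.1 := by simp [tw, normSq_ex]
  refine Prod.ext ?_ ?_
  · change ex (-e * deriv hh (normSq (tw e p).1)) * (tw e p).1 = p.1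
    rw [h, tw, ← mul_assoc, ← ex_add]
    simp [ex_zero]
  · change (tw e p).2 + -e * (hh (normSq (tw e p).1) -
      normSq (tw e p).1 * deriv hh (normSq (tw e p).1)) = p.2
    rw [h, tw]
    ring

theorem tw_lp (e : ℝ) (p : C3) : LP (E := C3) (F := C3) b0 b0 (tw e) p := by
  refine LP.flat (Eventually.of_forall fun x => (contDiff_tw e).contDiffAt)
    (bij_of_inv (contDiff_tw e) (contDiff_tw (-e)) (tw_tw e) p) one_pos fun v => ?_
  have hs := ((contDiff_ns.differentiable (by simp)) p).hasFDerivAt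
  set S := fderiv ℝ (fun p : C3 => normSq p.1) p
  have h0 : HasFDerivAt (fun p : C3 => hh (normSq p.1)) (deriv hh (normSq p.1) • S) p :=
    ((contDiff_hh.differentiable (by simp)) _).hasDerivAt.comp_hasFDerivAt p hs
  have h1 : HasFDerivAt (fun p : C3 => deriv hh (normSq p.1))
      (deriv (deriv hh) (normSq p.1) • S) p :=
    ((contDiff_h1.differentiable (by simp)) _).hasDerivAt.comp_hasFDerivAt p hs
  have hd : HasFDerivAt (tw e) _ p :=
    ((HasFDerivAt.ex' (h1.const_mul e)).mul hasFDerivAt_fst).prodMk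
      (hasFDerivAt_snd.add ((h0.sub (hs.mul h1)).const_mul e))
  rw [hd.fderiv]
  have hc := Real.cos_sq_add_sin_sq (e * deriv hh (normSq p.1))
  simp [b0, tw, ex_re, ex_im]
  simp only [normSq_apply] at hc ⊢
  linear_combination (p.1.re * v.1.im - p.1.im * v.1.re + (p.1.re * p.1.re + p.1.im * p.1.im) *
    (e * deriv (deriv hh) (p.1.re * p.1.re + p.1.im * p.1.im) * S v)) * hc

/-- The twist about the point `1`. -/
noncomputable def psi (e : ℝ) (p : C3) : C3 := tr 1 (tw e (tr (-1) p))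

theorem psi_psi (e : ℝ) (p : C3) : psi (-e) (psi e p) = p := by
  have h := tr_tr (-1) p
  rw [neg_neg] at h
  rw [psi, psi, tr_tr, tw_tw, h]

theorem psi_lp (e : ℝ) (p : C3) : LP (E := C3) (F := C3) b0 b0 (psi e) p :=
  (tr_lp _ p).comp ((tw_lp e _).comp (tr_lp _ _))

theorem psi_congr (e : ℝ) {p p' : C3} (h : Sol1 p = Sol1 p') :
    Sol1 (psi e p) = Sol1 (psi e p') := by
  obtain ⟨h1, h2⟩ := Sol1_eq_iff.1 h
  obtain ⟨k, hk⟩ := ex_eq_iff.1 h2
  refine Sol1_eq_iff.2 ⟨by simp only [psi, tr, tw, h1], ex_congr k ?_⟩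
  simp only [psi, tr, tw, h1, hk]
  ring

theorem psi_out {p : C3} (h : 16 ≤ normSq p.1) : psi 1 p = p := by
  have h1 : 6 < normSq (tr (-1) p).1 := by
    simp only [tr, normSq_apply, add_re, add_im, ofReal_re, ofReal_im, add_zero] at h ⊢
    by_contra h2
    have h3 : p.1.re ≤ 4 := by nlinarith [mul_self_nonneg p.1.im]
    nlinarith
  obtain ⟨h2, h3⟩ := hh_out h1
  have h4 : tw 1 (tr (-1) p) = tr (-1) p := by
    rw [tw, h2, h3]
    simp [ex_zero]
  have h5 := tr_tr (-1) p
  rw [neg_neg] at h5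
  rw [psi, h4, h5]

theorem psi_in {p : C3} (h : normSq (p.1 - 1) < 5) :
    psi 1 p = (2 - p.1, p.2 + 2 * p.1.im) := by
  have h0 : (tr (-1) p).1 = p.1 - 1 := by
    simp only [tr]
    push_cast
    ring
  obtain ⟨h2, h3⟩ := hh_in (h0 ▸ h : normSq (tr (-1) p).1 < 5)
  have h4 : ex π = -1 := Complex.exp_pi_mul_I
  rw [psi, tw, h2, h3, one_mul, h4]
  refine Prod.ext ?_ ?_
  · simp only [tr]
    push_cast
    ring
  · simp [tr]
    ring

theorem small {X : ℂ} (h : ‖X‖ ≤ 11 / 10) : normSq (X - 1) < 5 := by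
  have h1 : ‖X - 1‖ ≤ 11 / 10 + 1 := (norm_sub_le _ _).trans (add_le_add h norm_one.le)
  rw [normSq_eq_norm_sq]
  nlinarith [norm_nonneg (X - 1)]

end HhA

open HhA in
theorem hh17 : HhStmt := by
  refine ⟨fun x y => ∃ p ∈ (univ : Set C3), x = Sol1 p ∧ y = (Sol1 ∘ psi 1) p,
    CRel.of_params (a := b0) isOpen_univ (fun p _ => Sol1_lp p)
      (fun p _ => (psi_lp 1 p).comp (Sol1_lp _)) fun p _ p' _ => ⟨psi_congr 1, fun h => ?_⟩,
    ?_, fun n hn => ?_, fun p hp => ⟨p, trivial, rfl, ?_⟩, fun X θ hX => ⟨⟨_, trivial, rfl, ?_⟩,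
      ⟨_, trivial, rfl, ?_⟩⟩⟩
  · have := psi_congr (-1) h
    rwa [psi_psi, psi_psi] at this
  · rintro n n1 ⟨p, -, rfl, rfl⟩
    exact ⟨Sol1_z2_ne _, Sol1_z2_ne _⟩
  · obtain ⟨p, rfl⟩ := Sol1_surj hn
    refine ⟨⟨_, p, trivial, rfl, rfl⟩, _, psi (-1) p, trivial, rfl, ?_⟩
    have := psi_psi (-1) p
    rw [neg_neg] at this
    rw [Function.comp_apply, this]
  · rw [Function.comp_apply, psi_out hp]
  · rw [Function.comp_apply, psi_in (small hX)]
  · have h1 : normSq ((2 - X : ℂ) - 1) < 5 := by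
      rw [show (2 - X : ℂ) - 1 = -(X - 1) by ring, normSq_neg]
      exact small hX
    rw [Function.comp_apply, psi_in h1]
    congr 1
    refine Prod.ext (by simp) ?_
    simp

theorem knot17 : KnotStmt := by
  intro a P r1 r2 ha hP h1 h2 hc
  refine ⟨Knot.tau 3 (-11), fun t => rfl, ?_⟩
  have s2 : (0 : ℝ) < √2 := by positivity
  refine Knot.isotopic_emb hP (Knot.sc (r2 / r1 - 1)) (fun s hs x hx => ?_)
    (fun p => (((1 - p.1 : ℝ) : ℂ) * ex p.2, π - p.2)) ?_
    (fun p hp => ?_) (fun s t => ⟨-1, by norm_num, (hasDerivAt_id t).const_sub π⟩)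
    (fun s hs t t' => ?_) (by simp) ?_
  · obtain ⟨e0, e1, e2, e3⟩ := Knot.sc_apply (r2 / r1 - 1) x
    have hp : 0 < 1 + s * (r2 / r1 - 1) := by
      have : 0 < r2 / r1 := by positivity
      rcases hs.1.eq_or_lt with h | h
      · simp [← h]
      · nlinarith [hs.2, mul_pos h this]
    have f0 := congrArg (fun y : R4 => y 0) hx
    have f1 := congrArg (fun y : R4 => y 1) hx
    have f2 := congrArg (fun y : R4 => y 2) hx
    have f3 := congrArg (fun y : R4 => y 3) hx
    simp only [PiLp.add_apply, PiLp.smul_apply, smul_eq_mul, PiLp.zero_apply, e0, e1, e2, e3,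
      mul_zero, add_zero] at f0 f1 f2 f3
    refine Knot.ext4 ?_ ?_ f2 f3
    · exact (mul_eq_zero.1 (by linarith : (1 + s * (r2 / r1 - 1)) * x 0 = 0)).resolve_left hp.ne'
    · exact (mul_eq_zero.1 (by linarith : (1 + s * (r2 / r1 - 1)) * x 1 = 0)).resolve_left hp.ne'
  · refine ContDiff.prodMk (ContDiff.mul ?_ ?_) (contDiff_const.sub contDiff_snd)
    · exact Complex.ofRealCLM.contDiff.comp (contDiff_const.sub contDiff_fst)
    · exact Knot.contDiff_ex.comp contDiff_snd
  · rw [Complex.normSq_eq_norm_sq, norm_mul, Knot.norm_ex, Complex.norm_real, mul_one,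
      Real.norm_eq_abs, sq_abs]
    nlinarith [hp.1, hp.2]
  · constructor
    · rintro ⟨-, k, hk⟩
      refine ⟨-k, ?_⟩
      push_cast
      linarith
    · rintro ⟨k, rfl⟩
      refine ⟨?_, -k, by push_cast; ring⟩
      have : ex t = ex (t + 2 * π * k) := Knot.ex_eq_iff.2 ⟨-k, by push_cast; ring⟩
      simp only [← this]
  · have key : ∀ y : ℝ, Knot.nz ((P (0, -y)).1 + Knot.sc (r2 / r1 - 1) (P (0, -y)).1) =
        Knot.tau 3 (-11) y := by
      intro y
      obtain ⟨e0, e1, e2, e3⟩ := Knot.sc_apply (r2 / r1 - 1) (P (0, -y)).1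
      obtain ⟨g1, g2⟩ := hc (-y)
      have a0 := congrArg Complex.re g1
      have a1 := congrArg Complex.im g1
      have a2 := congrArg Complex.re g2
      have a3 := congrArg Complex.im g2
      simp only [z1, z2, Complex.re_ofReal_mul, Complex.im_ofReal_mul, Knot.ex_re, Knot.ex_im]
        at a0 a1 a2 a3
      refine Knot.nz_of_smul (c := √2 * r2) (by positivity) (Knot.ext4 ?_ ?_ ?_ ?_) <;>
        simp only [PiLp.add_apply, e0, e1, e2, e3, a0, a1, a2, a3] <;>
        simp [Knot.tau] <;> field_simp <;> ring_nf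
    simp only [sub_self, Complex.ofReal_zero, zero_mul, ← neg_sub _ π, key]
    exact (show Function.Surjective fun t : ℝ => t - π from
      fun y => ⟨y + π, by ring⟩).range_comp (Knot.tau 3 (-11))

end Pool.Agent.MP_5d9d0b_gt.M1
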