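import Pool.Agent.MP_5d9d0b_gt.M1.Spec

/-!
Row LO: two loops in the complement of the cable knot with non-commuting dihedral monodromy.
-/

namespace Pool.Agent.MP_5d9d0b_gt.M1

open scoped Real ComplexConjugate
open Set
open QLO (ex_pow conj_ex ex_two_pi ex_pi)

namespace Lo

theorem cont_Tor {ρ s u : ℝ → ℝ} (hρ : Continuous ρ) (hs : Continuous s) (hu : Continuous u) :
    Continuous fun t => Tor (ρ t) (s t) (u t) := by
  have g : Continuous fun t => mkL (ex (s t), (√(ρ t) : ℝ) * ex (u t)) := by fun_prop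
  refine continuous_induced_rng.2 ?_
  exact ((g.norm.inv₀ fun t => norm_ne_zero_iff.2 (mkL_ne (pair2_ne _ _))).smul g).congr
    fun t => (NN_coe (pair2_ne _ _)).symm

theorem re_ge {X : ℂ} (h : ‖X‖ ≤ 1) : 1 ≤ (2 - X).re := by
  have := Complex.re_le_norm X
  rw [Complex.sub_re, Complex.re_ofNat]
  linarith

theorem cont_arg {X : ℝ → ℂ} (hX : Continuous X) (h : ∀ t, ‖X t‖ ≤ 1) :
    Continuous fun t => Complex.arg (2 - X t) :=
  Complex.continuousOn_arg.comp_continuous (by fun_prop) fun t =>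
    Or.inl (one_pos.trans_le (re_ge (h t)))

theorem cont_ps {X : ℝ → ℂ} (hX : Continuous X) (h : ∀ t, ‖X t‖ ≤ 1) :
    Continuous fun t => ps (X t) := by
  have := cont_arg hX h
  unfold ps
  fun_prop

theorem cont_PP {X : ℝ → ℂ} {θ : ℝ → ℝ} (hX : Continuous X) (hθ : Continuous θ)
    (h : ∀ t, ‖X t‖ ≤ 1) : Continuous fun t => PP (X t, θ t) := by
  have a := cont_arg hX h
  have n : Continuous fun t => Complex.normSq (2 - X t) :=
    Complex.continuous_normSq.comp (by fun_prop)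
  refine cont_Tor (Continuous.div (by fun_prop) (by fun_prop) fun t => ?_) (by fun_prop)
    (by fun_prop)
  have := re_ge (h t)
  rw [Complex.normSq_apply]
  nlinarith [mul_self_nonneg (2 - X t).im]

theorem PP_per (X : ℂ) {θ θ' : ℝ} (k : ℤ) (h : θ' = θ + 2 * π * k) : PP (X, θ) = PP (X, θ') :=
  Tor_congr rfl (ex_congr (-3 * k) (by rw [h]; push_cast; ring))
    (ex_congr (2 * k) (by rw [h]; push_cast; ring))

@[fun_prop] theorem cont_r17 : Continuous r17 := Real.continuous_rpow_const (by positivity)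

theorem r17_pow {x : ℝ} (h : 0 ≤ x) : r17 x ^ 17 = x := Real.rpow_inv_natCast_pow h (by norm_num)

theorem r17_zero : r17 0 = 0 := Real.zero_rpow (by positivity)

theorem r17_one : r17 1 = 1 := Real.one_rpow _

theorem ps_one : ps 1 = 0 := by norm_num [ps]

theorem nsq_le {X : ℂ} (h : ‖X‖ ≤ 1) : Complex.normSq X ≤ 1 := by
  rw [Complex.normSq_eq_norm_sq]
  exact pow_le_one₀ (norm_nonneg _) h

theorem FT_eq {X : ℂ} (θ : ℝ) (h : ‖X‖ ≤ 1) : (FT (X, θ)).2 ^ 2 = 4 * (FT (X, θ)).1 ^ 17 ↔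
    conj X ^ 2 = -(2 / 3 * (1 - Complex.normSq X) : ℝ) * ex θ ^ 5 := by
  have r : ((r17 ((1 - Complex.normSq X) / 6) : ℝ) : ℂ) ^ 17 = (1 - Complex.normSq X) / 6 := by
    exact_mod_cast r17_pow (by linarith [nsq_le h])
  have e : ex (6 * θ) = ex θ ^ 6 := by rw [ex_pow]; norm_num
  simp only [FT, e]
  push_cast
  refine ⟨fun q => mul_left_cancel₀ (a := ex θ ^ 12 * ex (ps X) ^ 34)
    (mul_ne_zero (pow_ne_zero _ (ex_ne _)) (pow_ne_zero _ (ex_ne _))) ?_, fun q => ?_⟩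
  · linear_combination q - 4 * ex θ ^ 17 * ex (ps X) ^ 34 * r
  · linear_combination ex θ ^ 12 * ex (ps X) ^ 34 * q + 4 * ex θ ^ 17 * ex (ps X) ^ 34 * r

theorem kc_nsq (q : ℝ) : Complex.normSq ((√(2 / 5) : ℝ) * ex (5 * q)) = 2 / 5 :=
  normSq_sqrt_ex (by norm_num) _

theorem kc_le (q : ℝ) : ‖((√(2 / 5) : ℝ) : ℂ) * ex (5 * q)‖ ≤ 1 := by
  rw [← sq_le_one_iff₀ (norm_nonneg _), ← Complex.normSq_eq_norm_sq, kc_nsq]
  norm_num

theorem kc_sq (q : ℝ) : conj (((√(2 / 5) : ℝ) : ℂ) * ex (5 * q)) ^ 2 =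
    -(2 / 3 * (1 - 2 / 5) : ℝ) * ex (π - 2 * q) ^ 5 := by
  have a : ((√(2 / 5) : ℝ) : ℂ) ^ 2 = 2 / 5 := by
    rw [← Complex.ofReal_pow, Real.sq_sqrt (by norm_num)]; norm_num
  have b : ex (π - 2 * q) ^ 5 = ex π * ex (-(5 * q)) ^ 2 := by
    rw [ex_pow, ex_pow, ← ex_add]
    exact ex_congr (-2) (by push_cast; ring)
  rw [map_mul, Complex.conj_ofReal, conj_ex, mul_pow, a, b, ex_pi]
  push_cast
  ring

theorem mem_KC {X : ℂ} {θ : ℝ}
    (e : conj X ^ 2 = -(2 / 3 * (1 - Complex.normSq X) : ℝ) * ex θ ^ 5) : PP (X, θ) ∈ KC := by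
  have n : Complex.normSq X = 2 / 5 := by
    have := congrArg Complex.normSq e
    simp only [map_mul, map_pow, Complex.normSq_conj, Complex.normSq_neg, Complex.normSq_ofReal,
      normSq_ex] at this
    nlinarith [Complex.normSq_nonneg X]
  obtain ⟨q, rfl⟩ : ∃ q, θ = π - 2 * q := ⟨(π - θ) / 2, by ring⟩
  rw [n, ← kc_sq] at e
  rcases sq_eq_sq_iff_eq_or_eq_neg.1 e with e | e
  · exact ⟨q, by rw [(starRingEnd ℂ).injective e]⟩
  · refine ⟨q + π, ?_⟩
    have : ex (5 * (q + π)) = ex (5 * q) * ex π := by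
      rw [← ex_add]
      exact ex_congr (-2) (by push_cast; ring)
    rw [(starRingEnd ℂ).injective (e.trans (map_neg _ _).symm)]
    simp only [this, ex_pi, mul_neg, mul_one]
    exact PP_per _ 1 (by push_cast; ring)

/-- The second loop. -/
noncomputable def XL (t : ℝ) : ℂ := (Real.cos (π * t) : ℝ) * ex (-(5 * (π * t)))

noncomputable def DD (t : ℝ) : ℝ := √(Real.cos (π * t) ^ 2 / 4 + (1 - Real.cos (π * t) ^ 2) / 6)
noncomputable def aa (t : ℝ) : ℝ := r17 (DD t - Real.cos (π * t) / 2)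
noncomputable def bb (t : ℝ) : ℝ := -r17 (DD t + Real.cos (π * t) / 2)
noncomputable def ee (t : ℝ) : ℂ := ex (π * t) * ex (ps (XL t))

theorem XL_le (t : ℝ) : ‖XL t‖ ≤ 1 := by
  rw [XL, norm_mul, norm_ex, mul_one, Complex.norm_real]
  exact Real.abs_cos_le_one _

theorem XL_nsq (t : ℝ) : Complex.normSq (XL t) = Real.cos (π * t) ^ 2 := by
  rw [XL, map_mul, normSq_ex, mul_one, Complex.normSq_ofReal, sq]

theorem XL_zero : XL 0 = 1 := by simp [XL, ex_zero]

theorem XL_one : XL 1 = 1 := by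
  rw [XL, mul_one, Real.cos_pi, ex_congr (t := π) 3 (by push_cast; ring), ex_pi]
  simp

theorem cont_XL : Continuous XL := by unfold XL; fun_prop

theorem DD_ge (t : ℝ) : |Real.cos (π * t) / 2| ≤ DD t :=
  Real.abs_le_sqrt (by linarith [Real.cos_sq_le_one (π * t)])

theorem DD_sq (t : ℝ) : DD t ^ 2 = Real.cos (π * t) ^ 2 / 4 + (1 - Real.cos (π * t) ^ 2) / 6 :=
  Real.sq_sqrt (by linarith [Real.cos_sq_le_one (π * t), sq_nonneg (Real.cos (π * t))])

theorem ab_mul (t : ℝ) : aa t * bb t = -r17 ((1 - Real.cos (π * t) ^ 2) / 6) := by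
  have h := abs_le.1 (DD_ge t)
  rw [aa, bb, mul_neg, r17, r17, ← Real.mul_rpow (by linarith) (by linarith), r17]
  congr 2
  linear_combination DD_sq t

theorem ab_pow (t : ℝ) : aa t ^ 17 + bb t ^ 17 = -Real.cos (π * t) := by
  have h := abs_le.1 (DD_ge t)
  rw [aa, bb, Odd.neg_pow (by decide), r17_pow (by linarith), r17_pow (by linarith)]
  ring

theorem DD_end {t : ℝ} (h : Real.cos (π * t) ^ 2 = 1) : DD t = 1 / 2 := by
  rw [DD, h, Real.sqrt_eq_iff_mul_self_eq_of_pos] <;> norm_num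

theorem end0 : aa 0 = 0 ∧ bb 0 = -1 ∧ ee 0 = 1 := by
  have d := DD_end (t := 0) (by simp)
  refine ⟨?_, ?_, by simp [ee, XL_zero, ps_one, ex_zero]⟩
  · rw [aa, d]; simp [r17_zero]
  · rw [bb, d]; norm_num [r17_one]

theorem end1 : aa 1 = 1 ∧ bb 1 = 0 ∧ ee 1 = -1 := by
  have d := DD_end (t := 1) (by simp)
  refine ⟨?_, ?_, by simp [ee, XL_one, ps_one, ex_zero, ex_pi]⟩
  · rw [aa, d]; norm_num [r17_one]
  · rw [bb, d]; norm_num [r17_zero]

/-- Lifts of the second loop. -/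
noncomputable def BB (z : ℂ) (t : ℝ) : ℂ × ℂ := (z * (aa t * ee t), z⁻¹ * (bb t * ee t))

theorem cont_BB (z : ℂ) : Continuous (BB z) := by
  have := cont_ps cont_XL XL_le
  unfold BB aa bb ee DD
  fun_prop

theorem conj_XL (t : ℝ) : conj (XL t) = (Real.cos (π * t) : ℝ) * ex (π * t) ^ 5 := by
  rw [XL, map_mul, Complex.conj_ofReal, conj_ex, neg_neg, ex_pow, Nat.cast_ofNat]

theorem ex_two (t : ℝ) : ex (2 * π * t) = ex (π * t) ^ 2 := by
  rw [ex_pow, Nat.cast_ofNat, mul_assoc]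

theorem Pi_BB {z : ℂ} (hz : z ^ 17 = 1) (t : ℝ) : Pi17 (BB z t) = FT (XL t, 2 * π * t) := by
  have h0 : z ≠ 0 := fun h => by rw [h] at hz; norm_num at hz
  have h1 : (aa t : ℂ) * bb t = -(r17 ((1 - Real.cos (π * t) ^ 2) / 6) : ℝ) := by
    exact_mod_cast ab_mul t
  have h2 : (aa t : ℂ) ^ 17 + bb t ^ 17 = -(Real.cos (π * t) : ℝ) := by exact_mod_cast ab_pow t
  have h3 : ex (6 * (2 * π * t)) = ex (π * t) ^ 12 := by
    rw [ex_pow]; congr 1; push_cast; ring
  refine Prod.ext ?_ ?_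
  · simp only [Pi17, BB, FT, XL_nsq, ex_two, ee, ← h1]
    field_simp
  · simp only [Pi17, BB, FT, conj_XL, h3, ee, mul_pow, inv_pow, hz]
    linear_combination ex (π * t) ^ 17 * ex (ps (XL t)) ^ 17 * h2

/-- The lift of the first loop. -/
noncomputable def AA (t : ℝ) : ℂ := -(ex (ps (ex (2 * π * t))) * ex (-(2 * π * t / 17)))

theorem FT_AA (t : ℝ) : FT (ex (2 * π * t), 0) = (0, AA t ^ 17) := by
  have : ex (-(2 * π * t / 17)) ^ 17 = ex (-(2 * π * t)) := by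
    rw [ex_pow]; congr 1; push_cast; ring
  rw [AA, Odd.neg_pow (by decide), mul_pow, this]
  simp [FT, normSq_ex, r17_zero, conj_ex, ex_zero, mul_comm]

end Lo

open Lo in
theorem qlo17 : QLoStmt := by
  rintro ⟨f, hf, h1, h2⟩
  have n1 : ∀ t, ‖ex (2 * π * t)‖ ≤ 1 := fun t => (norm_ex _).le
  have g1 : ∀ t, f (PP (ex (2 * π * t), 0)) = (0, AA t ^ 17) := fun t =>
    (h2 _ (n1 t)).trans (FT_AA t)
  have nm : ∀ X θ, ‖X‖ ≤ 1 → PP (X, θ) ∈ KC →
      conj X ^ 2 = -(2 / 3 * (1 - Complex.normSq X) : ℝ) * ex θ ^ 5 := by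
    rintro X θ h ⟨q, e⟩
    rw [← FT_eq θ h, ← h2 _ h, ← e, h2 _ (kc_le q), FT_eq _ (kc_le q), kc_nsq, kc_sq]
  have hz : ex (2 * π / 17) ^ 17 = 1 := by
    rw [ex_pow, ← ex_two_pi]; congr 1; push_cast; ring
  have cA : Continuous AA := by
    have := cont_ps (X := fun t => ex (2 * π * t)) (by fun_prop) n1
    unfold AA
    fun_prop
  have A0 : AA 0 = -1 := by simp [AA, ex_zero, ps_one]
  have A1 : AA 1 = -(ex (2 * π / 17))⁻¹ := by simp [AA, ex_zero, ps_one, ex_two_pi, ex_neg]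
  obtain ⟨a0, b0, u0⟩ := end0
  obtain ⟨a1, b1, u1⟩ := end1
  refine ⟨f, fun t => PP (ex (2 * π * t), 0), fun t => PP (XL t, 2 * π * t), fun t => (0, AA t),
    fun t => (AA t, 0), BB 1, BB (ex (2 * π / 17)), hf.continuousOn, fun x hx h => hx ?_,
    cont_PP (by fun_prop) (by fun_prop) n1, cont_PP cont_XL (by fun_prop) XL_le,
    fun t h => ?_, fun t h => ?_, by simp [ex_two_pi, ex_zero], by simp [XL_zero, ex_zero], ?_,
    by fun_prop, by fun_prop, cont_BB _, cont_BB _, fun t => by simp [g1, Pi17],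
    fun t => by simp [g1, Pi17], fun t => (Pi_BB (one_pow _) t).trans (h2 _ (XL_le t)).symm,
    fun t => (Pi_BB hz t).trans (h2 _ (XL_le t)).symm, by simp [BB, a0, b0, u0, A0],
    by simp [BB, a0, b0, u0, A1], by simp [BB, a1, b1, u1, A0], fun h => ?_⟩
  · obtain ⟨⟨X, θ⟩, p, rfl⟩ := h1 x h
    exact mem_KC ((FT_eq θ p).1 (h2 _ p ▸ h))
  · simpa [normSq_ex, ex_ne] using nm _ _ (n1 t) h
  · have e := nm _ _ (XL_le t) h
    rw [conj_XL, XL_nsq, ex_two, mul_pow, ← pow_mul, ← pow_mul, mul_comm 5 2,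
      mul_left_inj' (pow_ne_zero _ (ex_ne _))] at e
    have : Real.cos (π * t) ^ 2 = -(2 / 3 * (1 - Real.cos (π * t) ^ 2)) := by exact_mod_cast e
    linarith [sq_nonneg (Real.cos (π * t))]
  · simp only [XL_one, mul_zero, ex_zero]
    exact PP_per _ (-1) (by push_cast; ring)
  · have e : ex (2 * π / 17) = ex (-(2 * π / 17)) := by
      simpa [BB, a1, u1, A1, ex_neg] using congrArg Prod.fst h
    have s : 0 < Real.sin (2 * π / 17) :=
      Real.sin_pos_of_pos_of_lt_pi (by positivity) (by linarith [Real.pi_pos])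
    have := congrArg Complex.im e
    rw [ex_im, ex_im, Real.sin_neg] at this
    linarith

end Pool.Agent.MP_5d9d0b_gt.M1
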