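import Pool.Agent.MP_5d9d0b_gt.M1.Spec

/-!
The monodromy of the dihedral covering of degree `34` over two charts is cyclic.
-/

namespace Pool.Agent.MP_5d9d0b_gt.M1

open scoped Real Topology
open Set Filter

namespace TwoA

theorem continuous_Pi17 : Continuous Pi17 := by unfold Pi17; fun_prop

theorem exists_root {a b a0 b0 : ℂ} (h1 : a ^ 17 = a0 ^ 17) (h2 : b ^ 17 = b0 ^ 17)
    (h3 : a * b = a0 * b0) : ∃ ζ : ℂ, ζ ^ 17 = 1 ∧ a = ζ * a0 ∧ b = ζ ^ 16 * b0 := by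
  by_cases ha : a0 = 0
  · have ha' : a = 0 := by simpa [ha] using h1
    by_cases hb : b0 = 0
    · have hb' : b = 0 := by simpa [hb] using h2
      exact ⟨1, by simp, by simp [ha, ha'], by simp [hb, hb']⟩
    · have e : (b / b0) ^ 17 = 1 := by rw [div_pow, h2, div_self (pow_ne_zero _ hb)]
      refine ⟨(b / b0) ^ 16, ?_, by simp [ha, ha'], ?_⟩
      · rw [← pow_mul, mul_comm, pow_mul, e, one_pow]
      · have : ((b / b0) ^ 16) ^ 16 = ((b / b0) ^ 17) ^ 15 * (b / b0) := by ring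
        rw [this, e, one_pow, one_mul, div_mul_cancel₀ _ hb]
  · have e : (a / a0) ^ 17 = 1 := by rw [div_pow, h1, div_self (pow_ne_zero _ ha)]
    refine ⟨a / a0, e, by rw [div_mul_cancel₀ _ ha], ?_⟩
    have e2 : a / a0 * b = b0 := by field_simp; exact h3
    rw [← e2]
    linear_combination (-b) * e

theorem fibre_cases {e e0 : ℂ × ℂ} (h1 : Pi17 e = Pi17 e0) : ∃ ζ : ℂ, ζ ^ 17 = 1 ∧
    (e = (ζ * e0.1, ζ ^ 16 * e0.2) ∨ e = (ζ * e0.2, ζ ^ 16 * e0.1)) := by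
  have h2 : e.1 * e.2 = e0.1 * e0.2 := congrArg Prod.fst h1
  have h3 : e.1 ^ 17 + e.2 ^ 17 = e0.1 ^ 17 + e0.2 ^ 17 := congrArg Prod.snd h1
  have h4 : (e.1 ^ 17 - e0.1 ^ 17) * (e.1 ^ 17 - e0.2 ^ 17) = 0 := by
    have : e.1 ^ 17 * e.2 ^ 17 = e0.1 ^ 17 * e0.2 ^ 17 := by rw [← mul_pow, h2, mul_pow]
    linear_combination e.1 ^ 17 * h3 - this
  rcases mul_eq_zero.1 h4 with h | h
  · obtain ⟨ζ, z1, z2, z3⟩ := exists_root (sub_eq_zero.1 h)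
      (show e.2 ^ 17 = e0.2 ^ 17 by linear_combination h3 - h) h2
    exact ⟨ζ, z1, Or.inl (Prod.ext z2 z3)⟩
  · obtain ⟨ζ, z1, z2, z3⟩ := exists_root (sub_eq_zero.1 h)
      (show e.2 ^ 17 = e0.1 ^ 17 by linear_combination h3 - h) (h2.trans (mul_comm _ _))
    exact ⟨ζ, z1, Or.inr (Prod.ext z2 z3)⟩

theorem fibre (y : ℂ × ℂ) : (Pi17 ⁻¹' {y}).Finite := by
  rcases (Pi17 ⁻¹' {y}).eq_empty_or_nonempty with h | ⟨e0, h0⟩
  · simp [h]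
  have hμ : {ζ : ℂ | ζ ^ 17 = 1}.Finite :=
    (Multiset.finite_toSet (Polynomial.nthRoots 17 (1 : ℂ))).subset fun ζ h =>
      (Polynomial.mem_nthRoots (by norm_num)).2 h
  refine ((hμ.image fun ζ => (ζ * e0.1, ζ ^ 16 * e0.2)).union
    (hμ.image fun ζ => (ζ * e0.2, ζ ^ 16 * e0.1))).subset fun e he => ?_
  obtain ⟨ζ, z, h | h⟩ := fibre_cases (e := e) (e0 := e0) (he.trans h0.symm)
  · exact Or.inl ⟨ζ, z, h.symm⟩
  · exact Or.inr ⟨ζ, z, h.symm⟩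

/-- the deck transformations act transitively on the fibres and have exponent `34` -/
theorem deck {e e0 : ℂ × ℂ} (h1 : Pi17 e = Pi17 e0) : ∃ g : ℂ × ℂ → ℂ × ℂ, Continuous g ∧
    (∀ x, Pi17 (g x) = Pi17 x) ∧ g e0 = e ∧ ∀ x, g^[34] x = x := by
  obtain ⟨ζ, z, h | h⟩ := fibre_cases h1
  all_goals have z' : (ζ ^ 16) ^ 17 = 1 := by rw [← pow_mul, mul_comm, pow_mul, z, one_pow]
  · refine ⟨fun x => (ζ * x.1, ζ ^ 16 * x.2), by fun_prop, fun x => Prod.ext ?_ ?_, h.symm,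
      fun x => ?_⟩
    · show ζ * x.1 * (ζ ^ 16 * x.2) = x.1 * x.2
      linear_combination x.1 * x.2 * z
    · show (ζ * x.1) ^ 17 + (ζ ^ 16 * x.2) ^ 17 = x.1 ^ 17 + x.2 ^ 17
      rw [mul_pow, mul_pow, z, z', one_mul, one_mul]
    · have : ∀ k : ℕ, (fun x : ℂ × ℂ => (ζ * x.1, ζ ^ 16 * x.2))^[k] x =
          (ζ ^ k * x.1, (ζ ^ 16) ^ k * x.2) := by
        intro k
        induction k with
        | zero => simp
        | succ k ih => rw [Function.iterate_succ_apply', ih, pow_succ' ζ k, pow_succ' _ k,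
            mul_assoc, mul_assoc]
      rw [this, show 34 = 17 * 2 from rfl, pow_mul, pow_mul, z, z']
      simp
  · refine ⟨fun x => (ζ * x.2, ζ ^ 16 * x.1), by fun_prop, fun x => Prod.ext ?_ ?_, h.symm,
      fun x => ?_⟩
    · show ζ * x.2 * (ζ ^ 16 * x.1) = x.1 * x.2
      linear_combination x.1 * x.2 * z
    · show (ζ * x.2) ^ 17 + (ζ ^ 16 * x.1) ^ 17 = x.1 ^ 17 + x.2 ^ 17
      rw [mul_pow, mul_pow, z, z', one_mul, one_mul, add_comm]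
    · have : (fun x : ℂ × ℂ => (ζ * x.2, ζ ^ 16 * x.1))^[2] = id := by
        funext x
        refine Prod.ext ?_ ?_
        · show ζ * (ζ ^ 16 * x.1) = x.1
          linear_combination x.1 * z
        · show ζ ^ 16 * (ζ * x.2) = x.2
          linear_combination x.2 * z
      rw [show 34 = 2 * 17 from rfl, Function.iterate_mul, this, Function.iterate_id, id]

theorem norm_le_aux (a v s : ℂ) (h : a ^ 17 * a ^ 17 = s * a ^ 17 - v ^ 17) :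
    ‖a‖ ≤ 1 + ‖s‖ + ‖v‖ ^ 17 := by
  have h0 := norm_nonneg s
  have h0' : 0 ≤ ‖v‖ ^ 17 := by positivity
  rcases le_or_gt ‖a‖ 1 with h1 | h1
  · linarith
  have h2 : 1 ≤ ‖a‖ ^ 17 := one_le_pow₀ h1.le
  have h3 : ‖a‖ ≤ ‖a‖ ^ 17 := le_self_pow₀ h1.le (by norm_num)
  have h4 : ‖a‖ ^ 17 * ‖a‖ ^ 17 ≤ ‖s‖ * ‖a‖ ^ 17 + ‖v‖ ^ 17 := by
    have := norm_sub_le (s * a ^ 17) (v ^ 17)
    rwa [← h, norm_mul, norm_mul, norm_pow, norm_pow] at this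
  have h5 : ‖a‖ ^ 17 ≤ ‖s‖ + ‖v‖ ^ 17 := by
    refine le_of_mul_le_mul_right ?_ (lt_of_lt_of_le one_pos h2)
    nlinarith
  linarith

theorem isClosedMap_Pi17 : IsClosedMap Pi17 := by
  refine IsProperMap.isClosedMap (isProperMap_iff_isCompact_preimage.2 ⟨continuous_Pi17, ?_⟩)
  intro K hK
  obtain ⟨C, hC⟩ := hK.isBounded.exists_norm_le
  refine Metric.isCompact_of_isClosed_isBounded (hK.isClosed.preimage continuous_Pi17) ?_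
  refine isBounded_iff_forall_norm_le.2 ⟨1 + C + C ^ 17, fun e he => ?_⟩
  have h1 : ‖e.1 * e.2‖ ≤ C := (norm_fst_le (Pi17 e)).trans (hC _ he)
  have h2 : ‖e.1 ^ 17 + e.2 ^ 17‖ ≤ C := (norm_snd_le (Pi17 e)).trans (hC _ he)
  have h3 : ‖e.1 * e.2‖ ^ 17 ≤ C ^ 17 := by gcongr
  have h4 := norm_le_aux e.1 (e.1 * e.2) (e.1 ^ 17 + e.2 ^ 17) (by ring)
  have h5 := norm_le_aux e.2 (e.1 * e.2) (e.1 ^ 17 + e.2 ^ 17) (by ring)
  rw [Prod.norm_def, max_le_iff]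
  constructor <;> linarith

theorem locHomeo : IsLocalHomeomorphOn Pi17 (Pi17 ⁻¹' good) := by
  intro e he
  have hne : e.1 ^ 17 - e.2 ^ 17 ≠ 0 := fun h => he (by
    show (e.1 ^ 17 + e.2 ^ 17) ^ 2 = 4 * (e.1 * e.2) ^ 17
    linear_combination (e.1 ^ 17 - e.2 ^ 17) * h)
  have f1 : HasStrictFDerivAt (fun p : ℂ × ℂ => p.1) (ContinuousLinearMap.fst ℂ ℂ ℂ) e :=
    hasStrictFDerivAt_fst
  have f2 : HasStrictFDerivAt (fun p : ℂ × ℂ => p.2) (ContinuousLinearMap.snd ℂ ℂ ℂ) e :=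
    hasStrictFDerivAt_snd
  obtain ⟨A, hA, hA'⟩ : ∃ A : ℂ × ℂ →L[ℂ] ℂ × ℂ, HasStrictFDerivAt Pi17 A e ∧
      ∀ v, A v = (e.1 * v.2 + e.2 * v.1, 17 * e.1 ^ 16 * v.1 + 17 * e.2 ^ 16 * v.2) :=
    ⟨_, (f1.mul f2).prodMk ((f1.pow 17).add (f2.pow 17)), fun v => by simp⟩
  have hker : LinearMap.ker (A : ℂ × ℂ →ₗ[ℂ] ℂ × ℂ) = ⊥ := by
    rw [LinearMap.ker_eq_bot']
    intro v hv
    have h := (hA' v).symm.trans hv
    have h1 : e.1 * v.2 + e.2 * v.1 = 0 := congrArg Prod.fst h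
    have h2 : 17 * e.1 ^ 16 * v.1 + 17 * e.2 ^ 16 * v.2 = 0 := congrArg Prod.snd h
    have h3 : (e.1 ^ 17 - e.2 ^ 17) * v.1 = 0 := by
      linear_combination (e.1 / 17) * h2 - e.2 ^ 16 * h1
    have h4 : (e.1 ^ 17 - e.2 ^ 17) * v.2 = 0 := by
      linear_combination e.1 ^ 16 * h1 - (e.2 / 17) * h2
    exact Prod.ext ((mul_eq_zero.1 h3).resolve_left hne) ((mul_eq_zero.1 h4).resolve_left hne)
  have hB : HasStrictFDerivAt Pi17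
      (ContinuousLinearEquiv.ofBijective A hker (LinearMap.ker_eq_bot_iff_range_eq_top.1 hker) :
        ℂ × ℂ →L[ℂ] ℂ × ℂ) e := by
    rw [ContinuousLinearEquiv.coe_ofBijective]; exact hA
  exact ⟨_, hB.mem_toOpenPartialHomeomorph_source, by simp⟩

theorem cov : IsCoveringMapOn Pi17 good :=
  isClosedMap_Pi17.isCoveringMapOn_of_isLocalHomeomorphOn (fun y _ => fibre y) locHomeo

/-- local uniqueness of lifts -/
theorem un_loc {A : Type} [TopologicalSpace A] {g1 g2 : A → ℂ × ℂ} {a : A}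
    (h1 : ContinuousAt g1 a) (h2 : ContinuousAt g2 a) (h : g1 a = g2 a) (hg : Pi17 (g1 a) ∈ good)
    (he : ∀ᶠ x in 𝓝 a, Pi17 (g1 x) = Pi17 (g2 x)) : ∀ᶠ x in 𝓝 a, g1 x = g2 x := by
  obtain ⟨φ, hφ, hφ'⟩ := locHomeo (g1 a) hg
  filter_upwards [he, h1.eventually (φ.open_source.mem_nhds hφ),
    h2.eventually (φ.open_source.mem_nhds (h ▸ hφ))] with x e1 e2 e3
  exact φ.injOn e2 e3 (by rw [← hφ']; exact e1)

/-- uniqueness of lifts -/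
theorem un {A : Type} [TopologicalSpace A] [PreconnectedSpace A] {g1 g2 : A → ℂ × ℂ}
    (h1 : Continuous g1) (h2 : Continuous g2) (hg : ∀ x, Pi17 (g1 x) ∈ good)
    (he : ∀ x, Pi17 (g1 x) = Pi17 (g2 x)) {a : A} (h : g1 a = g2 a) (x : A) : g1 x = g2 x := by
  have hc : IsClopen {x | g1 x = g2 x} := ⟨isClosed_eq h1 h2, isOpen_iff_mem_nhds.2 fun y hy =>
    un_loc h1.continuousAt h2.continuousAt hy (hg y) (Eventually.of_forall he)⟩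
  exact (hc.eq_univ ⟨a, h⟩).ge (mem_univ x)

/-- lifting over a simply connected chart with a deck action -/
theorem chart {D : Type} [TopologicalSpace D] [SimplyConnectedSpace D]
    [LocallyPathConnectedSpace D] (g : D → ℂ × ℂ) (hg : Continuous g) (hgood : ∀ d, g d ∈ good)
    (T : ℤ → D → D) (hT : ∀ k, Continuous (T k)) (T0 : ∀ d, T 0 d = d)
    (Tadd : ∀ k l d, T (k + l) d = T k (T l d)) (gT : ∀ k d, g (T k d) = g d)
    (o : D) (y : ℂ × ℂ) (ho : g o = y) :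
    ∃ (L : (Pi17 ⁻¹' {y}) → D → ℂ × ℂ) (ξ : Equiv.Perm (Pi17 ⁻¹' {y})),
      (∀ e, Continuous (L e)) ∧ (∀ e d, Pi17 (L e d) = g d) ∧ (∀ e, L e o = e) ∧
      (∀ d a, Pi17 a = g d → ∃ e, L e d = a) ∧ (∀ e e' d, L e d = L e' d → e = e') ∧
      (∀ (k : ℤ) e d, L e (T k d) = L ((ξ ^ k) e) d) ∧ ξ ^ 34 = 1 := by
  have ex : ∀ d a, Pi17 a = g d → ∃ L : D → ℂ × ℂ, Continuous L ∧ (∀ d, Pi17 (L d) = g d) ∧
      L d = a := fun d a h => by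
    obtain ⟨L, ⟨h1, h2⟩, -⟩ := cov.existsUnique_continuousMap_lifts ⟨g, hg⟩ (a₀ := d) h hgood
    exact ⟨L, L.continuous, fun d => congrFun h2 d, h1⟩
  have u : ∀ {L L' : D → ℂ × ℂ}, Continuous L → Continuous L' → (∀ d, Pi17 (L d) = g d) →
      (∀ d, Pi17 (L' d) = g d) → ∀ {d}, L d = L' d → ∀ d', L d' = L' d' :=
    fun h1 h2 h3 h4 _ h => un h1 h2 (fun d => (h3 d).symm ▸ hgood d)
      (fun d => (h3 d).trans (h4 d).symm) h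
  choose L L1 L2 L3 using fun e : (Pi17 ⁻¹' {y}) => ex o e (e.2.trans ho.symm)
  have inj : ∀ e e' d, L e d = L e' d → e = e' := fun e e' d h => Subtype.ext (by
    rw [← L3 e, ← L3 e']; exact u (L1 e) (L1 e') (L2 e) (L2 e') h o)
  let ρ : ℤ → (Pi17 ⁻¹' {y}) → (Pi17 ⁻¹' {y}) := fun k e =>
    ⟨L e (T k o), (L2 e _).trans ((gT k o).trans ho)⟩
  have hρ : ∀ k e d, L e (T k d) = L (ρ k e) d := fun k e d =>
    u ((L1 e).comp (hT k)) (L1 _) (fun d => (L2 e _).trans (gT k d)) (L2 _) (L3 (ρ k e)).symm d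
  obtain ⟨ξ, hξ⟩ := QUp.perm_of_action ρ (fun e => inj _ _ o (by rw [← hρ, T0]))
    fun k l e => inj _ _ o (by rw [← hρ, ← hρ, ← hρ, Tadd])
  refine ⟨L, ξ, L1, L2, L3, fun d a h => ?_, inj, fun k e d => by rw [hρ, hξ],
    Equiv.ext fun e => ?_⟩
  · obtain ⟨L', h1, h2, h3⟩ := ex d a h
    refine ⟨⟨L' o, (h2 o).trans ho⟩, ?_⟩
    rw [← h3]
    exact u (L1 _) h1 (L2 _) h2 (L3 _) d
  obtain ⟨G, G1, G2, G3, G4⟩ := deck (e := (ξ e).1) (e0 := e.1) ((ξ e).2.trans e.2.symm)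
  let G' : (Pi17 ⁻¹' {y}) → (Pi17 ⁻¹' {y}) := fun x => ⟨G x.1, (G2 _).trans x.2⟩
  have h1 : ∀ x, (ξ x).1 = L x (T 1 o) := fun x => by
    rw [← zpow_one ξ, ← hξ]
  have h2 : Function.Commute ξ G' := fun x => Subtype.ext (by
    show (ξ (G' x)).1 = G (ξ x).1
    rw [h1, h1]
    exact u (L1 _) (G1.comp (L1 x)) (L2 _) (fun d => (G2 _).trans (L2 x d))
      ((L3 _).trans (congrArg G (L3 x).symm)) _)
  have h3 : ∀ k : ℕ, (ξ ^ k) e = G'^[k] e := by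
    intro k
    induction k with
    | zero => rfl
    | succ k ih =>
      rw [pow_succ', Equiv.Perm.mul_apply, ih, (h2.iterate_right k).eq,
        Function.iterate_succ_apply]
      exact congrArg _ (Subtype.ext G3.symm)
  have h4 : Function.Semiconj Subtype.val G' G := fun _ => rfl
  rw [h3]
  exact Subtype.ext (((h4.iterate_right 34).eq e).trans (G4 _))

theorem path {X F : Type} {f : X → ℂ × ℂ} {ξ : Equiv.Perm F} {Θ : X → Set (F → ℂ × ℂ)}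
    (hM : Mark f ξ Θ) {γ : ℝ → X} (hL : QUp.Loc Θ γ) (hgood : ∀ t, f (γ t) ∈ good)
    {A1 A2 : ℝ → ℂ × ℂ} (c1 : Continuous A1) (c2 : Continuous A2)
    (l1 : ∀ t, Pi17 (A1 t) = f (γ t)) (l2 : ∀ t, Pi17 (A2 t) = f (γ t))
    {θ : F → ℂ × ℂ} (h0 : θ ∈ Θ (γ 0)) (h1 : θ ∈ Θ (γ 1)) {u1 u2 v1 v2 : F}
    (e1 : θ u1 = A1 0) (e2 : θ u2 = A2 0) (e3 : θ v1 = A1 1) (e4 : θ v2 = A2 1) :
    ∃ k : ℤ, (ξ ^ k) u1 = v1 ∧ (ξ ^ k) u2 = v2 := by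
  let Φ : ℝ → Set (F × F) := fun t =>
    {p | ∃ θ ∈ Θ (γ t), ∃ k : ℤ, θ ((ξ ^ k) p.1) = A1 t ∧ θ ((ξ ^ k) p.2) = A2 t}
  have key : ∀ t, ∀ θ ∈ Θ (γ t), ∀ w1 w2, θ w1 = A1 t → θ w2 = A2 t →
      Φ t = {p | ∃ k : ℤ, (ξ ^ k) p.1 = w1 ∧ (ξ ^ k) p.2 = w2} := by
    intro t θ hθ w1 w2 a1 a2
    ext p
    constructor
    · rintro ⟨θ', hθ', k, b1, b2⟩
      obtain ⟨m, hm⟩ := hM.orb _ θ hθ θ' hθ'
      refine ⟨m + k, hM.inj _ θ hθ ?_, hM.inj _ θ hθ ?_⟩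
      · rw [zpow_add, Equiv.Perm.mul_apply, ← hm, b1, a1]
      · rw [zpow_add, Equiv.Perm.mul_apply, ← hm, b2, a2]
    · rintro ⟨k, b1, b2⟩
      exact ⟨θ, hθ, k, by rw [b1, a1], by rw [b2, a2]⟩
  have hlc : IsLocallyConstant Φ := by
    rw [IsLocallyConstant.iff_eventually_eq]
    intro t0
    obtain ⟨θ, hθ, hc⟩ := hL t0
    have hθ0 := hθ.self_of_nhds
    obtain ⟨w1, a1⟩ := hM.surj _ _ hθ0 _ (l1 t0)
    obtain ⟨w2, a2⟩ := hM.surj _ _ hθ0 _ (l2 t0)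
    have b1 := un_loc (hc w1) c1.continuousAt a1 (by rw [hM.lift _ _ hθ0]; exact hgood t0)
      (hθ.mono fun t ht => (hM.lift _ _ ht _).trans (l1 t).symm)
    have b2 := un_loc (hc w2) c2.continuousAt a2 (by rw [hM.lift _ _ hθ0]; exact hgood t0)
      (hθ.mono fun t ht => (hM.lift _ _ ht _).trans (l2 t).symm)
    filter_upwards [hθ, b1, b2] with t ht d1 d2
    rw [key t _ ht w1 w2 d1 d2, key t0 _ hθ0 w1 w2 a1 a2]
  have h := hlc.apply_eq_of_preconnectedSpace 0 1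
  rw [key 0 θ h0 u1 u2 e1 e2, key 1 θ h1 v1 v2 e3 e4] at h
  exact (Set.ext_iff.1 h (u1, u2)).1 ⟨0, by simp, by simp⟩

/-- the two-chart argument -/
theorem two {X D1 D2 D0 : Type} [TopologicalSpace D1] [SimplyConnectedSpace D1]
    [LocallyPathConnectedSpace D1] [TopologicalSpace D2] [SimplyConnectedSpace D2]
    [LocallyPathConnectedSpace D2] [TopologicalSpace D0] [PreconnectedSpace D0]
    (f : X → ℂ × ℂ) (P1 : D1 → X) (P2 : D2 → X)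
    (c1 : Continuous fun d => f (P1 d)) (c2 : Continuous fun d => f (P2 d))
    (g1 : ∀ d, f (P1 d) ∈ good) (g2 : ∀ d, f (P2 d) ∈ good)
    (T1 : ℤ → D1 → D1) (hT1 : ∀ k, Continuous (T1 k)) (T10 : ∀ d, T1 0 d = d)
    (T1add : ∀ k l d, T1 (k + l) d = T1 k (T1 l d))
    (f1 : ∀ d d', P1 d = P1 d' ↔ ∃ k, d' = T1 k d)
    (T2 : ℤ → D2 → D2) (hT2 : ∀ k, Continuous (T2 k)) (T20 : ∀ d, T2 0 d = d)
    (T2add : ∀ k l d, T2 (k + l) d = T2 k (T2 l d))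
    (f2 : ∀ d d', P2 d = P2 d' ↔ ∃ k, d' = T2 k d)
    (j1 : D0 → D1) (j2 : D0 → D2) (hj1 : Continuous j1) (hj2 : Continuous j2)
    (hj : ∀ d, P1 (j1 d) = P2 (j2 d)) (hov : ∀ d1 d2, P1 d1 = P2 d2 → ∃ d, P1 (j1 d) = P1 d1)
    (o o' : D0) (ho1 : T1 3 (j1 o) = j1 o') (ho2 : T2 (-11) (j2 o) = j2 o') :
    ∃ (F : Type) (ξ : Equiv.Perm F) (Θ : X → Set (F → ℂ × ℂ)), Mark f ξ Θ ∧
      ∀ γ : ℝ → X, (∀ t0, (∃ s : ℝ → D1, ContinuousAt s t0 ∧ ∀ᶠ t in 𝓝 t0, P1 (s t) = γ t) ∨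
        ∃ s : ℝ → D2, ContinuousAt s t0 ∧ ∀ᶠ t in 𝓝 t0, P2 (s t) = γ t) → QUp.Loc Θ γ := by
  obtain ⟨L1, ξ1, a1, a2, a3, a4, a5, a6, -⟩ := chart _ c1 g1 T1 hT1 T10 T1add
    (fun k d => by rw [← (f1 d _).2 ⟨k, rfl⟩]) (j1 o) _ rfl
  obtain ⟨L2, ξ2, b1, b2, b3, b4, b5, b6, b7⟩ := chart _ c2 g2 T2 hT2 T20 T2add
    (fun k d => by rw [← (f2 d _).2 ⟨k, rfl⟩]) (j2 o) (f (P1 (j1 o))) (by rw [hj])
  have h0 : ∀ e d, L1 e (j1 d) = L2 e (j2 d) := fun e d =>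
    un ((a1 e).comp hj1) ((b1 e).comp hj2) (fun d => by rw [Function.comp, a2]; exact g1 _)
      (fun d => by rw [Function.comp, Function.comp, a2, b2, hj]) (a := o)
      ((a3 e).trans (b3 e).symm) d
  have h1 : ξ1 ^ (3 : ℤ) = ξ2 ^ (-11 : ℤ) := Equiv.ext fun e => Subtype.ext (by
    rw [← a3, ← b3, ← a6, ← b6, ho1, ho2, h0])
  obtain ⟨m, hm⟩ : ∃ m : ℤ, ξ2 = ξ1 ^ m := by
    refine ⟨3 * 3, ?_⟩
    have h2 : ξ2 ^ (34 : ℤ) = 1 := by exact_mod_cast b7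
    rw [zpow_mul, h1, ← zpow_mul, show (-11 * 3 : ℤ) = 34 * -1 + 1 by norm_num, zpow_add, zpow_mul,
      h2, one_zpow, one_mul, zpow_one]
  have mix : ∀ d1 d2, P1 d1 = P2 d2 → ∃ k l : ℤ, ∀ e, L1 ((ξ1 ^ l) e) d1 = L2 ((ξ1 ^ k) e) d2 := by
    intro d1 d2 h
    obtain ⟨d, hd⟩ := hov d1 d2 h
    obtain ⟨k, hk⟩ := (f1 _ _).1 hd.symm
    obtain ⟨l, hl⟩ := (f2 _ _).1 (h.symm.trans (hd.symm.trans (hj d)))
    refine ⟨m * l, k, fun e => ?_⟩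
    rw [zpow_mul, ← hm, ← a6, ← b6, ← hk, ← hl, h0]
  refine ⟨_, ξ1, fun x => {θ | (∃ d, P1 d = x ∧ θ = fun e => L1 e d) ∨
    ∃ d, P2 d = x ∧ θ = fun e => L2 e d}, ⟨?_, ?_, ?_, ?_⟩, ?_⟩
  · rintro x θ (⟨d, rfl, rfl⟩ | ⟨d, rfl, rfl⟩)
    · exact fun e e' h => a5 e e' d h
    · exact fun e e' h => b5 e e' d h
  · rintro x θ (⟨d, rfl, rfl⟩ | ⟨d, rfl, rfl⟩) e
    · exact a2 e d
    · exact b2 e d
  · rintro x θ (⟨d, rfl, rfl⟩ | ⟨d, rfl, rfl⟩) a h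
    · exact a4 d a h
    · exact b4 d a h
  · rintro x θ (⟨d, rfl, rfl⟩ | ⟨d, rfl, rfl⟩) θ' (⟨d', h, rfl⟩ | ⟨d', h, rfl⟩)
    · obtain ⟨k, rfl⟩ := (f1 _ _).1 h.symm
      exact ⟨k, fun e => a6 k e d⟩
    · obtain ⟨k, l, hk⟩ := mix _ _ h.symm
      refine ⟨l + -k, fun e => ?_⟩
      beta_reduce
      rw [zpow_add, Equiv.Perm.mul_apply, hk]
      simp
    · obtain ⟨k, l, hk⟩ := mix _ _ h
      refine ⟨k + -l, fun e => ?_⟩
      beta_reduce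
      rw [zpow_add, Equiv.Perm.mul_apply, ← hk]
      simp
    · obtain ⟨k, rfl⟩ := (f2 _ _).1 h.symm
      exact ⟨m * k, fun e => by rw [zpow_mul, ← hm]; exact b6 k e d⟩
  · intro γ hγ t0
    rcases hγ t0 with ⟨s, hs, h⟩ | ⟨s, hs, h⟩
    · exact ⟨fun t e => L1 e (s t), h.mono fun t ht => Or.inl ⟨_, ht, rfl⟩,
        fun e => (a1 e).continuousAt.comp hs⟩
    · exact ⟨fun t e => L2 e (s t), h.mono fun t ht => Or.inr ⟨_, ht, rfl⟩,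
        fun e => (b1 e).continuousAt.comp hs⟩

end TwoA

theorem path17 : PathStmt :=
  fun _ _ _ _ _ hM _ hL hg _ _ c1 c2 l1 l2 _ h0 h1 _ _ _ _ e1 e2 e3 e4 =>
    TwoA.path hM hL hg c1 c2 l1 l2 h0 h1 e1 e2 e3 e4

theorem two17 : TwoStmt :=
  fun _ _ _ _ _ _ _ _ _ _ _ _ f P1 P2 c1 c2 g1 g2 T1 a1 a2 a3 a4 T2 b1 b2 b3 b4 j1 j2 d1 d2 d3 d4
    o o' e1 e2 =>
    TwoA.two f P1 P2 c1 c2 g1 g2 T1 a1 a2 a3 a4 T2 b1 b2 b3 b4 j1 j2 d1 d2 d3 d4 o o' e1 e2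

end Pool.Agent.MP_5d9d0b_gt.M1
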