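import Pool.Agent.MP_5d9d0b_gt.M1.Spec

/-!
The monodromy of the dihedral covering over the complement of `T(3,-11)` is cyclic.
-/

namespace Pool.Agent.MP_5d9d0b_gt.M1

open scoped Real Topology
open Set Filter

namespace UpA

open QUp

theorem q1 : ((3 : ℕ) : ℝ) * (11 / 3) = ((11 : ℤ) : ℝ) := by norm_num

theorem q2 : ((11 : ℕ) : ℝ) * (3 / 11) = ((3 : ℤ) : ℝ) := by norm_num

theorem dom3 {n : ℕ} {S β θ : ℝ} {Y : ℂ} (hS : 0 < S) (h0 : 0 < β) (h1 : β < 2 * π / 3)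
    (h : Y ^ n = S * ex (3 * β)) : (Y, θ) ∈ Dom n 1 :=
  dom_arg (β := 3 / 2 * β) one_pos hS (by linarith) (by linarith)
    (by rw [h, show 2 * (3 / 2 * β) = 3 * β by ring])

/-- passing from the first chart to the second -/
theorem rel_swap {a b : ℂ} {R β θ : ℝ} (hR : 0 < R) (h : Rel (11 / 3) a b (R * ex β, θ)) :
    Rel (3 / 11) b a ((R⁻¹ : ℝ) * ex (3 / 11 * β), -(11 / 3 * θ) + β) := by
  obtain ⟨c, hc, h1, h2⟩ := h
  have hR' : (R : ℂ) ≠ 0 := by exact_mod_cast hR.ne'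
  refine ⟨c * R, mul_pos hc hR, ?_, ?_⟩
  · rw [h2, mul_assoc, ← QUp.ex_add,
      show 3 / 11 * β + -(3 / 11 * (-(11 / 3 * θ) + β)) = θ by ring]
    push_cast
    field_simp
  · rw [h1, QUp.ex_add]
    push_cast
    ring

theorem swap_real {a b : ℂ} {R θ : ℝ} (hR : 0 < R) (h : Rel (11 / 3) a b (R, θ)) :
    Rel (3 / 11) b a ((R⁻¹ : ℝ), -(11 / 3 * θ)) := by
  have := rel_swap (β := 0) hR (by rwa [QUp.ex_zero, mul_one])
  rwa [mul_zero, QUp.ex_zero, mul_one, add_zero] at this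

theorem mem_K {x : S3} : x ∈ K311 ↔ ∃ θ, Rel (11 / 3) (z2 x) (z1 x) ((1 : ℝ), θ) := by
  constructor
  · rintro ⟨t, h1, h2⟩
    refine ⟨3 * t, (√2)⁻¹, by positivity, ?_, h1⟩
    rw [h2, show -(11 / 3 * (3 * t)) = -11 * t by ring]
    push_cast
    ring
  · rintro ⟨θ, c, hc, h1, h2⟩
    have h3 : z2 x = c * ex (-(11 / 3 * θ)) := by
      rw [h1]
      push_cast
      ring
    have h4 := QUp.norm_z x
    rw [norm_of hc h2, norm_of hc h3] at h4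
    have h5 : c = (√2)⁻¹ := by
      refine (pow_left_inj₀ hc.le (by positivity) two_ne_zero).1 ?_
      rw [inv_pow, Real.sq_sqrt (by norm_num)]
      linarith
    refine ⟨θ / 3, ?_, ?_⟩
    · rw [← h5, h2, mul_div_cancel₀ _ three_ne_zero]
    · rw [← h5, h3, show -(11 / 3 * θ) = -11 * (θ / 3) by ring]

/-- moving a point of the first chart into the basic sector -/
theorem sector {a b : ℂ} {p : ℂ × ℝ} (h : Rel (11 / 3) a b p) :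
    ∃ R β θ : ℝ, 0 ≤ R ∧ 0 ≤ β ∧ β < 2 * π / 3 ∧ Rel (11 / 3) a b (R * ex β, θ) := by
  have hp : 0 < 2 * π / 3 := by have := Real.pi_pos; positivity
  obtain ⟨k, h1, h2⟩ : ∃ k : ℤ, 0 ≤ Complex.arg p.1 - k * (2 * π / 3) ∧
      Complex.arg p.1 - k * (2 * π / 3) < 2 * π / 3 := by
    have h3 := toIcoMod_mem_Ico' hp (Complex.arg p.1)
    rw [toIcoMod, zsmul_eq_mul] at h3
    exact ⟨_, h3.1, h3.2⟩
  refine ⟨‖p.1‖, _, p.2 + 2 * π * k, norm_nonneg _, h1, h2, ?_⟩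
  have h4 := h.tk k
  have h5 : p.1 * ex (11 / 3 * (2 * π * k)) =
      (‖p.1‖ : ℂ) * ex (Complex.arg p.1 - k * (2 * π / 3)) := by
    conv_lhs => rw [← QUp.ex_arg p.1]
    rw [mul_assoc, ← QUp.ex_add, QUp.ex_congr (4 * k) (t := Complex.arg p.1 - k * (2 * π / 3))
      (by push_cast; ring)]
  rwa [Tk, h5] at h4

theorem cover {x : S3} (hx : x ∉ K311) :
    (∃ p ∈ Dom 3 1, Rel (11 / 3) (z2 x) (z1 x) p) ∨
      ∃ p ∈ Dom 11 1, Rel (3 / 11) (z1 x) (z2 x) p := by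
  by_cases h2 : z1 x = 0
  · have h1 : z2 x ≠ 0 := fun h => by simpa [h, h2] using QUp.norm_z x
    refine Or.inr ⟨_, ?_, rel_of_ne _ _ h1 (QUp.ex_arg _).symm⟩
    rw [h2, zero_div, zero_mul]
    exact zero_dom (by norm_num) one_pos _
  obtain ⟨R, β, θ, hR, h0, h1, hp⟩ :=
    sector (rel_of_ne (11 / 3) (z2 x) h2 (QUp.ex_arg (z1 x)).symm)
  rcases h0.eq_or_lt with rfl | h0
  · rw [QUp.ex_zero, mul_one] at hp
    rcases lt_trichotomy R 1 with h | rfl | h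
    · exact Or.inl ⟨_, dom_real.2 (pow_lt_one₀ hR h three_ne_zero), hp⟩
    · exact (hx (mem_K.2 ⟨θ, hp⟩)).elim
    · have h3 : 0 < R := by linarith
      exact Or.inr ⟨_, dom_real.2 (pow_lt_one₀ (inv_pos.2 h3).le (inv_lt_one_of_one_lt₀ h)
        (by norm_num)), swap_real h3 hp⟩
  · refine Or.inl ⟨_, ?_, hp⟩
    rcases hR.eq_or_lt with rfl | hR
    · rw [Complex.ofReal_zero, zero_mul]
      exact zero_dom three_ne_zero one_pos _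
    · exact dom3 (S := R ^ 3) (pow_pos hR 3) h0 h1 (by
        rw [mul_pow, QUp.ex_pow]; push_cast; rfl)

theorem overlap {a b : ℂ} {p p' : ℂ × ℝ} (hp : p ∈ Dom 3 1)
    (hp' : p' ∈ Dom 11 1) (h : Rel (11 / 3) a b p) (h' : Rel (3 / 11) b a p') :
    ∃ R β θ : ℝ, 0 < R ∧ 0 < β ∧ β < 2 * π / 3 ∧ Rel (11 / 3) a b (R * ex β, θ) := by
  obtain ⟨R, β, θ, hR, h0, h1, hθ⟩ := sector h
  have hR0 : 0 < R := by
    refine lt_of_le_of_ne hR fun h0 => ?_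
    obtain ⟨c, hc, -, e⟩ := h'
    obtain ⟨c', -, e', -⟩ := hθ
    have := norm_of hc e
    rw [e', ← h0] at this
    simp at this
    linarith
  rcases h0.eq_or_lt with rfl | h0
  · exfalso
    rw [QUp.ex_zero, mul_one] at hθ
    obtain ⟨k, hk⟩ := h.fib hθ
    have h2 := dom_real.1 (hk ▸ (tk_dom q1 k).2 hp)
    obtain ⟨l, hl⟩ := h'.fib (swap_real hR0 hθ)
    have h3 := dom_real.1 (hl ▸ (tk_dom q2 l).2 hp')
    have h4 : R < 1 := lt_of_pow_lt_pow_left₀ 3 zero_le_one (by rwa [one_pow])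
    have h5 : 1 ≤ R⁻¹ ^ 11 := one_le_pow₀ ((one_le_inv₀ hR0).2 h4.le)
    linarith
  · exact ⟨R, β, θ, hR0, h0, h1, hθ⟩

theorem not_K1 {x : S3} {p : ℂ × ℝ} (hp : p ∈ Dom 3 1)
    (h : Rel (11 / 3) (z2 x) (z1 x) p) : x ∉ K311 := fun hx => by
  obtain ⟨θ, hθ⟩ := mem_K.1 hx
  obtain ⟨k, hk⟩ := h.fib hθ
  have := dom_real.1 (hk ▸ (tk_dom q1 k).2 hp)
  simp at this

theorem not_K2 {x : S3} {p : ℂ × ℝ} (hp : p ∈ Dom 11 1)
    (h : Rel (3 / 11) (z1 x) (z2 x) p) : x ∉ K311 := fun hx => by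
  obtain ⟨θ, hθ⟩ := mem_K.1 hx
  obtain ⟨k, hk⟩ := h.fib (swap_real one_pos hθ)
  have := dom_real.1 (hk ▸ (tk_dom q2 k).2 hp)
  simp at this

end UpA

open QUp in
theorem qup17 : QUpStmt := by
  rintro path two ⟨f, γ, δ, A1, A2, B1, B2, hf, hg, cγ, cδ, hγ, hδ, e1, e2, e3, cA1, cA2, cB1, cB2,
    lA1, lA2, lB1, lB2, s1, s2, s3, hne⟩
  have i1 := sc_dom three_ne_zero one_pos
  have i2 := sc_dom (n := 11) (by norm_num) one_pos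
  have i3 := (isOpen_dom 3 1).locallyPathConnectedSpace
  have i4 := (isOpen_dom 11 1).locallyPathConnectedSpace
  obtain ⟨P1, cP1, hP1⟩ := exists_P (D := Dom 3 1) (fun d => ex d.1.2)
    (fun d => d.1.1 * ex (-(11 / 3 * d.1.2))) (by fun_prop) (by fun_prop)
    fun d => Or.inl (QUp.ex_ne _)
  obtain ⟨P2, cP2, hP2⟩ := exists_P (D := Dom 11 1) (fun d => d.1.1 * ex (-(3 / 11 * d.1.2)))
    (fun d => ex d.1.2) (by fun_prop) (by fun_prop) fun d => Or.inr (QUp.ex_ne _)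
  replace hP1 : ∀ d x, P1 d = x ↔ Rel (11 / 3) (z2 x) (z1 x) d := fun d x =>
    (hP1 d x).trans (exists_congr fun c => and_congr_right fun _ => and_comm)
  replace hP2 : ∀ d x, P2 d = x ↔ Rel (3 / 11) (z1 x) (z2 x) d := hP2
  have k1 : ∀ d, P1 d ∉ K311 := fun d => UpA.not_K1 d.2 ((hP1 d _).1 rfl)
  have k2 : ∀ d, P2 d ∉ K311 := fun d => UpA.not_K2 d.2 ((hP2 d _).1 rfl)
  obtain ⟨T1, t1, t2, t3, t4⟩ := deck (ρ := 1) UpA.q1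
  obtain ⟨T2, u1, u2, u3, u4⟩ := deck (ρ := 1) UpA.q2
  let D0 : Set (ℝ × ℝ × ℝ) := Ioi 0 ×ˢ Ioo 0 (2 * π / 3) ×ˢ univ
  have i5 : PreconnectedSpace D0 := Subtype.preconnectedSpace
    (isPreconnected_Ioi.prod (isPreconnected_Ioo.prod isPreconnected_univ))
  let j1 : D0 → Dom 3 1 := fun d => ⟨(d.1.1 * ex d.1.2.1, d.1.2.2),
    UpA.dom3 (S := d.1.1 ^ 3) (pow_pos d.2.1 3) d.2.2.1.1 d.2.2.1.2 (by
      rw [mul_pow, QUp.ex_pow]; push_cast; rfl)⟩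
  let j2 : D0 → Dom 11 1 := fun d =>
    ⟨((d.1.1⁻¹ : ℝ) * ex (3 / 11 * d.1.2.1), -(11 / 3 * d.1.2.2) + d.1.2.1),
    UpA.dom3 (S := d.1.1⁻¹ ^ 11) (pow_pos (inv_pos.2 d.2.1) 11) d.2.2.1.1 d.2.2.1.2 (by
      rw [mul_pow, QUp.ex_pow, ← mul_assoc, UpA.q2]; push_cast; rfl)⟩
  have cj1 : Continuous j1 := Continuous.subtype_mk (by fun_prop) _
  have cj2 : Continuous j2 := by
    have : Continuous fun d : D0 => d.1.1⁻¹ := Continuous.inv₀ (by fun_prop) fun d => ne_of_gt d.2.1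
    exact Continuous.subtype_mk (by fun_prop) _
  have hm : ∀ θ : ℝ, ((1, π / 2, θ) : ℝ × ℝ × ℝ) ∈ D0 := fun θ =>
    ⟨one_pos (α := ℝ), ⟨half_pos Real.pi_pos, by
      show π / 2 < 2 * π / 3
      linarith [Real.pi_pos]⟩, trivial⟩
  have R1 : ∀ d, Rel (11 / 3) (z2 (P1 d)) (z1 (P1 d)) d := fun d => (hP1 d _).1 rfl
  have R2 : ∀ d, Rel (3 / 11) (z1 (P2 d)) (z2 (P2 d)) d := fun d => (hP2 d _).1 rfl
  have f1 : ∀ d d', P1 d = P1 d' ↔ ∃ k, d' = T1 k d := fun d d' => ⟨fun h => by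
      obtain ⟨k, hk⟩ := ((hP1 d _).1 h).fib (R1 d')
      exact ⟨k, Subtype.ext (hk.trans (t4 k d).symm)⟩, fun ⟨k, hk⟩ =>
      ((hP1 d' _).2 (by rw [hk, t4]; exact (R1 d).tk k)).symm⟩
  have f2 : ∀ d d', P2 d = P2 d' ↔ ∃ k, d' = T2 k d := fun d d' => ⟨fun h => by
      obtain ⟨k, hk⟩ := ((hP2 d _).1 h).fib (R2 d')
      exact ⟨k, Subtype.ext (hk.trans (u4 k d).symm)⟩, fun ⟨k, hk⟩ =>
      ((hP2 d' _).2 (by rw [hk, u4]; exact (R2 d).tk k)).symm⟩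
  have hj : ∀ d, P1 (j1 d) = P2 (j2 d) := fun d =>
    ((hP2 (j2 d) (P1 (j1 d))).2 (UpA.rel_swap d.2.1 (R1 (j1 d)))).symm
  have hov : ∀ d1 d2, P1 d1 = P2 d2 → ∃ d, P1 (j1 d) = P1 d1 := fun d1 d2 h => by
    obtain ⟨R, β, θ, a1, a2, a3, a4⟩ := UpA.overlap d1.2 d2.2 (R1 d1) ((hP2 d2 _).1 h.symm)
    exact ⟨⟨(R, β, θ), a1, ⟨a2, a3⟩, trivial⟩, (hP1 _ _).2 a4⟩
  have ho1 : T1 3 (j1 ⟨_, hm 0⟩) = j1 ⟨_, hm (6 * π)⟩ := Subtype.ext (by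
    rw [t4]
    simp only [j1, Tk]
    rw [QUp.ex_congr (s := 11 / 3 * (2 * π * ((3 : ℤ) : ℝ))) (t := 0) 11 (by push_cast; ring),
      QUp.ex_zero, mul_one]
    congr 1; push_cast; ring)
  have ho2 : T2 (-11) (j2 ⟨_, hm 0⟩) = j2 ⟨_, hm (6 * π)⟩ := Subtype.ext (by
    rw [u4]
    simp only [j2, Tk]
    rw [QUp.ex_congr (s := 3 / 11 * (2 * π * ((-11 : ℤ) : ℝ))) (t := 0) (-3) (by push_cast; ring),
      QUp.ex_zero, mul_one]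
    congr 1; push_cast; ring)
  have c1 : Continuous fun d => f (P1 d) := hf.comp_continuous cP1 k1
  have c2 : Continuous fun d => f (P2 d) := hf.comp_continuous cP2 k2
  obtain ⟨F, ξ, Θ, hM, hL⟩ := two _ _ _ _ f P1 P2 c1 c2 (fun d => hg _ (k1 d))
    (fun d => hg _ (k2 d)) T1 t1 t2 t3 f1 T2 u1 u2 u3 f2 j1 j2 cj1 cj2 hj hov _ _ ho1 ho2
  have loc : ∀ γ : ℝ → S3, Continuous γ → (∀ t, γ t ∉ K311) → Loc Θ γ := fun γ c h =>
    hL γ fun t0 => by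
      rcases UpA.cover (h t0) with ⟨p, hp, hp'⟩ | ⟨p, hp, hp'⟩
      · obtain ⟨s, a1, a2⟩ := sect UpA.q1 (QUp.continuous_z2.comp c) (QUp.continuous_z1.comp c)
          hp hp'
        exact Or.inl ⟨s, a1, a2.mono fun t ht => (hP1 _ _).2 ht⟩
      · obtain ⟨s, a1, a2⟩ := sect UpA.q2 (QUp.continuous_z1.comp c) (QUp.continuous_z2.comp c)
          hp hp'
        exact Or.inr ⟨s, a1, a2.mono fun t ht => (hP2 _ _).2 ht⟩
  obtain ⟨θ, hθ, -⟩ := loc γ cγ hγ 0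
  have hθ0 := hθ.self_of_nhds
  obtain ⟨u, hu⟩ := hM.surj _ _ hθ0 _ (lA1 0)
  obtain ⟨a, ha⟩ := hM.surj _ _ hθ0 _ (e1 ▸ lA1 1)
  obtain ⟨b, hb⟩ := hM.surj _ _ hθ0 _ (lA2 0)
  obtain ⟨c, hc⟩ := hM.surj _ _ hθ0 _ (e1 ▸ lA2 1)
  obtain ⟨c', hc'⟩ := hM.surj _ _ hθ0 _ (e3 ▸ lB2 1)
  obtain ⟨k, p1, p2⟩ := path _ _ _ _ _ hM _ (loc γ cγ hγ) (fun t => hg _ (hγ t)) _ _ cA1 cA2
    lA1 lA2 _ hθ0 (e1.symm ▸ hθ0) _ _ _ _ hu hb ha hc
  obtain ⟨l, p3, p4⟩ := path _ _ _ _ _ hM _ (loc δ cδ hδ) (fun t => hg _ (hδ t)) _ _ cB1 cB2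
    lB1 lB2 _ (e2.symm ▸ hθ0) (e3.symm ▸ hθ0) _ _ _ _ (hu.trans s1) (ha.trans s2.symm)
    (hb.trans s3) hc'
  apply hne
  rw [← hc, ← hc', ← p2, ← p4, ← p1, ← p3, ← Equiv.Perm.mul_apply, ← Equiv.Perm.mul_apply,
    ← zpow_add, ← zpow_add, add_comm]

end Pool.Agent.MP_5d9d0b_gt.M1
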