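import Pool.Agent.MP_5d9d0b_gt.M1.Asm
import Pool.Agent.MP_5d9d0b_gt.M1.Ff
import Pool.Agent.MP_5d9d0b_gt.M1.Hh
import Pool.Agent.MP_5d9d0b_gt.M1.Lo
import Pool.Agent.MP_5d9d0b_gt.M1.Two
import Pool.Agent.MP_5d9d0b_gt.M1.Up

/-!
The final assembly for the slope `-1`.
-/

namespace Pool.Agent.MP_5d9d0b_gt.M1

open scoped Manifold ContDiff Real Topology
open Set Filter Complex

theorem Q17_homeo {K K' : Set S3} (h : S3 ≃ₜ S3) (e : h '' K = K') (hQ : Q17 K') : Q17 K := by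
  obtain ⟨f, γ, δ, A1, A2, B1, B2, h1, h2, h3, h4, h5, h6, h7, h8, h9, h10, h11, h12, h13, h14,
    h15, h16, h17, h18⟩ := hQ
  have hm : ∀ x, x ∈ K ↔ h x ∈ K' := fun x => by rw [← e, h.injective.mem_set_image]
  refine ⟨f ∘ h, h.symm ∘ γ, h.symm ∘ δ, A1, A2, B1, B2,
    h1.comp h.continuous.continuousOn fun x hx h0 => hx ((hm x).2 h0),
    fun x hx => h2 _ fun h0 => hx ((hm x).2 h0), h.symm.continuous.comp h3,
    h.symm.continuous.comp h4, fun t h0 => h5 t (by simpa using (hm _).1 h0),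
    fun t h0 => h6 t (by simpa using (hm _).1 h0), by simp [h7], by simp [h8], by simp [h9],
    h10, h11, h12, h13, by simpa using h14, by simpa using h15, by simpa using h16,
    by simpa using h17, h18⟩

theorem range_torus {τ : ℝ → S3} (h : ∀ t, (τ t).1 = (√2)⁻¹ •
    (!₂[Real.cos ((3 : ℤ) * t), Real.sin ((3 : ℤ) * t), Real.cos ((-11 : ℤ) * t),
      Real.sin ((-11 : ℤ) * t)] : R4)) : range τ = K311 := by
  have h1 : ∀ t, z1 (τ t) = ((√2)⁻¹ : ℝ) * ex (3 * t) ∧ z2 (τ t) = ((√2)⁻¹ : ℝ) * ex (-11 * t) := by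
    intro t
    constructor <;> apply Complex.ext <;>
      simp only [z1, z2, h, re_ofReal_mul, im_ofReal_mul, ex_re, ex_im] <;> simp
  ext x
  constructor
  · rintro ⟨t, rfl⟩
    exact ⟨t, h1 t⟩
  · rintro ⟨t, h2, h3⟩
    exact ⟨t, S3_ext ((h1 t).1.trans h2.symm) ((h1 t).2.trans h3.symm)⟩

/-- The third power of the toric map `T2`. -/
def T23 (y x : S3) : Prop := ∃ v, (∃ u, T2 y u ∧ T2 u v) ∧ T2 v x

theorem crel_T23 : CRel alphaSt alphaSt T23 := (crel_T2.comp crel_T2).comp crel_T2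

theorem T2_ge' {x y : S3} (h : T2 x y) {r : ℝ} (hr : 0 ≤ r) : Ge r x ↔ Ge (r / (1 + r)) y := by
  obtain ⟨ρ, h0, h1, h2⟩ := T2_rho h
  rw [h1.ge_iff, h2.ge_iff, div_le_div_iff₀ (by linarith) (by linarith)]
  constructor <;> intro h <;> linarith

theorem T2_z1 {x y : S3} (h : T2 x y) : z1 y ≠ 0 := by
  obtain ⟨ρ, -, -, h2⟩ := T2_rho h
  exact h2.1

theorem rr1v : rr 4 11 16 = 47 / 172 := by norm_num [rr, mob]
theorem rr2v : rr 1 2 16 = 47 / 31 := by norm_num [rr, mob]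

theorem g1 {x y : S3} (h : T2 x y) : Ge (47 / 31) x ↔ Ge (47 / 78) y := by
  rw [T2_ge' h (by norm_num)]; norm_num
theorem g2 {x y : S3} (h : T2 x y) : Ge (47 / 78) x ↔ Ge (47 / 125) y := by
  rw [T2_ge' h (by norm_num)]; norm_num
theorem g3 {x y : S3} (h : T2 x y) : Ge (47 / 125) x ↔ Ge (47 / 172) y := by
  rw [T2_ge' h (by norm_num)]; norm_num

theorem T23_ge {y x : S3} (h : T23 y x) : Ge (47 / 31) y ↔ Ge (47 / 172) x := by
  obtain ⟨v, ⟨u, h1, h2⟩, h3⟩ := h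
  rw [g1 h1, g2 h2, g3 h3]

/-- The toric identification near the common core circle. -/
def Tr (x y : S3) : Prop := x ∈ {x | Ge (rr 4 11 16) x}ᶜ ∧ T23 y x

theorem sd_of {Hm : S3 → S3 → Prop} (h : HD Hm) : SD 4 11 1 2 Hm Tr where
  kA := kd1
  kB := kd2
  hd := h
  tA _ _ e := e.1
  tB _ _ e := by
    rw [rr2v, T23_ge e.2, ← rr1v]; exact e.1
  eA x hx := by
    have hx' := hx
    rw [rr1v] at hx'
    obtain ⟨v, hv⟩ := T2_ran fun h1 => hx' (h1.mono (by norm_num))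
    rw [← g3 hv] at hx'
    obtain ⟨u, hu⟩ := T2_ran fun h1 => hx' (h1.mono (by norm_num))
    rw [← g2 hu] at hx'
    obtain ⟨y, hy⟩ := T2_ran fun h1 => hx' (h1.mono (by norm_num))
    exact ⟨y, hx, v, ⟨u, hy, hu⟩, hv⟩
  eB y hy := by
    obtain ⟨u, hu⟩ := T2_dom (z1_ne_of_not_gt fun h1 => hy h1.ge)
    obtain ⟨v, hv⟩ := T2_dom (T2_z1 hu)
    obtain ⟨x, hx⟩ := T2_dom (T2_z1 hv)
    have h1 : T23 y x := ⟨v, ⟨u, hu, hv⟩, hx⟩
    exact ⟨x, by rw [mem_compl_iff, mem_ofPred_eq, rr1v, ← T23_ge h1, ← rr2v]; exact hy, h1⟩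

theorem T23_tor {ρ : ℝ} (h : 0 ≤ ρ) (s t : ℝ) :
    T23 (Tor ρ s t) (Tor (ρ / (1 + 3 * ρ)) s (t - 3 * s)) := by
  have h1 := T2_tor h s t
  have h2 := T2_tor (ρ := ρ / (1 + ρ)) (by positivity) s (t - s)
  have h3 := T2_tor (ρ := ρ / (1 + ρ) / (1 + ρ / (1 + ρ))) (by positivity) s (t - s - s)
  refine ⟨_, ⟨_, h1, h2⟩, ?_⟩
  rw [Tor_congr (ρ := ρ / (1 + 3 * ρ))
    (ρ' := ρ / (1 + ρ) / (1 + ρ / (1 + ρ)) / (1 + ρ / (1 + ρ) / (1 + ρ / (1 + ρ)))) (s' := s)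
    (t' := t - s - s - s) (by field_simp; ring) rfl (congrArg ex (by ring))]
  exact h3

theorem KT {n x y : S3} (h1 : Kr 4 11 n x) (h2 : Kr 1 2 n y) : T23 y x := by
  obtain ⟨⟨φ, θ, a⟩, hp, rfl, rfl⟩ := h2
  have h0 : (1 : ℝ) < 2 * a := by exact_mod_cast hp
  have hp' : ((4 : ℤ) : ℝ) < (11 : ℤ) * a := by push_cast; linarith
  rw [kd1.crel.fun_r _ _ _ h1 ⟨(φ, θ, a), hp', rfl, rfl⟩]
  have h5 := T23_tor (kd2.mpos hp).le ((-1 : ℤ) * φ + (-3 : ℤ) * θ) ((1 : ℤ) * φ + (2 : ℤ) * θ)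
  have h6 : TP (rr 4 11) (-1) (-3) 4 11 (φ, θ, a) =
      Tor (rr 1 2 a / (1 + 3 * rr 1 2 a)) ((-1 : ℤ) * φ + (-3 : ℤ) * θ)
        ((1 : ℤ) * φ + (2 : ℤ) * θ - 3 * ((-1 : ℤ) * φ + (-3 : ℤ) * θ)) := by
    refine Tor_congr ?_ rfl (congrArg ex (by push_cast; ring))
    unfold rr mob
    push_cast
    have h3 : -1 + 2 * a ≠ 0 := by linarith
    have h4 : 1 + 3 * ((-1 + 3 * a) / (-1 + 2 * a)) = (-4 + 11 * a) / (-1 + 2 * a) := by
      rw [← mul_div_assoc, one_add_div h3]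
      congr 1; ring
    rw [h4, div_div_div_cancel_right₀ h3]
  rw [h6]; exact h5

theorem crel_HH {Hm : S3 → S3 → Prop} (h : HD Hm) : CRel alphaSt alphaSt (HH 4 11 1 2 Hm Tr) := by
  refine (kd1.crel.symm.comp (sd_of h).crelE).union
    (crel_T23.symm.restr_l (isClosed_Ge _).isOpen_compl) ?_ ?_
  · rintro x y y' ⟨n, h1, n', h2, h3⟩ e
    obtain rfl := h.fix' h2 (kd1.far h1 e.1)
    exact crel_T23.fun_l _ _ _ (KT h1 h3) e.2
  · rintro x x' y ⟨n, h1, n', h2, h3⟩ e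
    obtain rfl := h.symm.fix' h2 (kd2.far h3 ((sd_of h).tB _ _ e))
    exact crel_T23.fun_r _ _ _ (KT h1 h3) e.2

theorem colN1 : TCol (1 / 10) (mob 1 0 1 1) 1 0 (-1) 1 :=
  mob_col (by norm_num) (fun w _ => by linarith) (fun w hw => by linarith [hw.1])
    (by norm_num) (fun w => by push_cast; ring) (fun w => by push_cast; ring)

theorem colM1 : TCol (1 / 10) (mob 2 3 1 2) 2 (-3) (-1) 2 :=
  mob_col (by norm_num) (fun w hw => by linarith [hw.1]) (fun w hw => by linarith [hw.1])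
    (by norm_num) (fun w => by push_cast; ring) (fun w => by push_cast; ring)

theorem colN2 : TCol (1 / 10) (mob 5 2 2 1) 5 (-2) (-2) 1 :=
  mob_col (by norm_num) (fun w hw => by linarith [hw.1]) (fun w hw => by linarith [hw.1])
    (by norm_num) (fun w => by push_cast; ring) (fun w => by push_cast; ring)

theorem colM2 : TCol (1 / 10) (mob 1 1 2 3) 1 (-1) (-2) 3 :=
  mob_col (by norm_num) (fun w hw => by linarith [hw.1]) (fun w hw => by linarith [hw.1])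
    (by norm_num) (fun w => by push_cast; ring) (fun w => by push_cast; ring)

theorem colK1 (q z w : ℝ) (hw : |w| < 1 / 10) : Kr 1 2
    (TP (mob 1 0 1 1) 1 0 (-1) 1 (q, z, w)) (TP (mob 2 3 1 2) 2 (-3) (-1) 2 (q, z, w)) := by
  obtain ⟨h1, h2⟩ := abs_lt.1 hw
  refine ⟨(q, -q + z, 1 + w), ?_, Tor_congr ?_ (congrArg ex ?_)
    (congrArg ex ?_), Tor_congr ?_ (congrArg ex ?_) (congrArg ex ?_)⟩
  · show ((1 : ℤ) : ℝ) < (2 : ℤ) * (1 + w)
    push_cast; linarith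
  · rw [mobN]; simp [mob]
  · push_cast; ring
  · push_cast; ring
  · unfold rr mob
    push_cast
    congr 1 <;> ring
  · push_cast; ring
  · push_cast; ring

theorem colK2 (q z w : ℝ) (hw : |w| < 1 / 10) : Kr 4 11
    (TP (mob 5 2 2 1) 5 (-2) (-2) 1 (q, z, w)) (TP (mob 1 1 2 3) 1 (-1) (-2) 3 (q, z, w)) := by
  obtain ⟨h1, h2⟩ := abs_lt.1 hw
  have h3 : 0 < 5 + 2 * w := by linarith
  have h4 : 0 < 2 + 3 * w := by linarith
  refine ⟨(5 * q - 2 * z, -2 * q + z, (2 + w) / (5 + 2 * w)), ?_, Tor_congr ?_ (congrArg ex ?_)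
    (congrArg ex ?_), Tor_congr ?_ (congrArg ex ?_) (congrArg ex ?_)⟩
  · show ((4 : ℤ) : ℝ) < (11 : ℤ) * ((2 + w) / (5 + 2 * w))
    push_cast
    rw [← mul_div_assoc, lt_div_iff₀ h3]; linarith
  · rw [mobN, inv_div]; simp [mob]
  · push_cast; ring
  · push_cast; ring
  · unfold rr mob
    push_cast
    have e1 : -1 + 3 * ((2 + w) / (5 + 2 * w)) = (1 + 1 * w) / (5 + 2 * w) := by
      field_simp; ring
    have e2 : -4 + 11 * ((2 + w) / (5 + 2 * w)) = (2 + 3 * w) / (5 + 2 * w) := by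
      field_simp; ring
    rw [e1, e2, div_div_div_cancel_right₀ h3.ne']
  · push_cast; ring
  · push_cast; ring

theorem main :
    ∃ L L' : ℝ → S3, IsLegendrian L ∧ IsLegendrian L' ∧ IsTorusKnot 3 (-11) L ∧ ¬ Isotopic L' L ∧
      ∃ (M : Type) (_ : TopologicalSpace M) (_ : T2Space M) (_ : CompactSpace M)
        (_ : ChartedSpace R3 M) (_ : IsManifold (𝓡 3) ∞ M)
        (α : (x : M) → TangentSpace (𝓡 3) x → ℝ),
        IsContact α ∧ IsMinusOneSurgery (range L) α ∧ IsMinusOneSurgery (range L') α := by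
  obtain ⟨Hm, g1, g2, g3, g4, g5⟩ := hh17
  have hd : HD Hm := ⟨g1, g2, g3, g4, g5⟩
  have sd := sd_of hd
  have hne : (XX (fun n n1 => Hm n1 n) (((2 : ℤ) : ℝ) / ((1 : ℤ) : ℝ)) 4 11).Nonempty := by
    obtain ⟨y, hy⟩ := sd.eA (Sol2 (0, 0)) (by rw [(Sol2_rho _).ge_iff, rr1v]; simp)
    exact ⟨_, sd.symm.memX (Or.inr hy)⟩
  obtain ⟨M, i1, i2, i3, i4, i5, α, iA, iB, hA, hB, hcov, hAB⟩ :=
    glue_ne (HH 4 11 1 2 Hm Tr) _ _ _ _ _ _ (crel_HH hd)
      sd.symm.isOpen_X sd.isOpen_X hne (fun x y e => ⟨sd.symm.memX (HH_symm.2 e), sd.memX e⟩)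
      (isOpen_Gt _) (isOpen_Gt _) (fun x hx => sd.nbhd hx)
      (fun y hy => (sd.symm.nbhd hy).imp id fun ⟨x, e⟩ => ⟨x, HH_symm.1 e⟩)
      (fun x y e => sd.sep e) sd.symm.isCompact_C sd.isCompact_C sd.symm.C_sub sd.C_sub
      (fun x hx => sd.cover hx)
      (fun y hy => (sd.symm.cover hy).imp id fun ⟨x, h1, e⟩ => ⟨x, h1, HH_symm.1 e⟩)
  have v1 : 1 + mob 1 0 1 1 (-(1 / 10) / 2) =
      mob 2 3 1 2 (-(1 / 10) / 2 / (1 - -(1 / 10) / 2)) := by norm_num [mob]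
  have v2 : mob 5 2 2 1 (-(1 / 10) / 2) =
      1 + (1 + mob 1 1 2 3 (-(1 / 10) / 2 / (1 - -(1 / 10) / 2))) := by norm_num [mob]
  have v3 : 0 < mob 1 1 2 3 (-(1 / 10) / 2 / (1 - -(1 / 10) / 2)) := by norm_num [mob]
  have hh : (-(1 / 10) / 2 : ℝ) ∈ Icc (-(1 / 10) : ℝ) (1 / 10) := by norm_num
  obtain ⟨e2, he2, leg2, sur2⟩ := sd.surgery hA hB hcov hAB (crel_HH hd) colM2 colN2
    ((crel_T1.comp crel_T1).symm.restr_l (isOpen_Gt (mob 5 2 2 1 (-(1 / 10) / 2))))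
    (by
      rintro n x ⟨h, u, h1, h2⟩
      exact ⟨h, (T1_gt h1 _).2 ((T1_gt h2 _).2 (v2 ▸ h))⟩)
    (fun n h => by
      have h' := h
      rw [v2] at h'
      obtain ⟨u, hu⟩ := T1_ran (h'.mono (by linarith))
      obtain ⟨x, hx⟩ := T1_ran (((T1_gt hu _).2 h').mono (by linarith))
      exact ⟨x, h, u, hx, hu⟩)
    (fun x h => by
      obtain ⟨u, hu⟩ := T1_dom (h.z2_ne v3.le)
      have h1 := (T1_gt hu _).1 h
      obtain ⟨n, hn⟩ := T1_dom (h1.z2_ne (by linarith))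
      exact ⟨n, by rw [mem_ofPred_eq, v2]; exact (T1_gt hn _).1 h1, u, hu, hn⟩)
    (fun q z w h1 h2 => ⟨(colN2.gt_iff q z ⟨h1.le, by linarith⟩ hh).2 h2, by
      have h3 : 0 < 1 - w := by linarith
      have h4 : 0 < 2 + w := by linarith
      have h5 : mob 1 1 2 3 (w / (1 - w)) = (2 + w)⁻¹ := by
        unfold mob
        have e1 : 1 + 1 * (w / (1 - w)) = 1 / (1 - w) := by field_simp; ring
        have e2 : 2 + 3 * (w / (1 - w)) = (2 + w) / (1 - w) := by field_simp; ring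
        rw [e1, e2, div_div_div_cancel_right₀ h3.ne', one_div]
      have h6 := T1_tor (inv_pos.2 h4) q (-2 * q + z)
      have h7 := T1_tor (ρ := 1 + (2 + w)⁻¹) (by positivity) (q - (-2 * q + z)) (-2 * q + z)
      have h8 : TP (mob 1 1 2 3) 1 (-1) (-2) 3 (q + z, z, w / (1 - w)) =
          Tor (2 + w)⁻¹ q (-2 * q + z) :=
        Tor_congr h5 (congrArg ex (by push_cast; ring)) (congrArg ex (by push_cast; ring))
      have h9 : TP (mob 5 2 2 1) 5 (-2) (-2) 1 (q, z, w) =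
          Tor (1 + (1 + (2 + w)⁻¹)) (q - (-2 * q + z) - (-2 * q + z)) (-2 * q + z) := by
        refine Tor_congr ?_ (congrArg ex (by push_cast; ring)) (congrArg ex (by push_cast; ring))
        unfold mob
        simp only [one_mul]
        field_simp; ring
      rw [h8, h9]; exact ⟨_, h6, h7⟩⟩)
    colK2 (by norm_num [rr, mob]) (by norm_num [mob])
  obtain ⟨e1, he1, leg1, sur1⟩ := sd.symm.surgery hB hA (fun m => (hcov m).symm)
    (fun y hy x hx => by rw [eq_comm, hAB x hx y hy, HH_symm])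
    ((crel_HH hd).symm.congr fun y x => HH_symm) colM1 colN1
    (crel_T1.restr_l (isOpen_Gt (mob 1 0 1 1 (-(1 / 10) / 2))))
    (by rintro x n ⟨h, e⟩; exact ⟨h, v1 ▸ (T1_gt e _).1 h⟩)
    (fun x h => by
      obtain ⟨n, hn⟩ := T1_dom (h.z2_ne (colN1.pos _ hh).le)
      exact ⟨n, h, hn⟩)
    (fun n h => by
      rw [← v1] at h
      obtain ⟨x, hx⟩ := T1_ran (h.mono (by linarith [colN1.pos _ hh]))
      exact ⟨x, (T1_gt hx _).2 h, hx⟩)
    (fun q z w h1 h2 => ⟨(colN1.gt_iff q z ⟨h1.le, by linarith⟩ hh).2 h2, by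
      have h3 : 0 < 1 - w := by linarith
      have h4 : 0 < 1 + w := by linarith
      have h5 := T1_tor (colN1.pos w ⟨h1.le, by linarith⟩) ((1 : ℤ) * q + (0 : ℤ) * z)
        ((-1 : ℤ) * q + (1 : ℤ) * z)
      have h6 : TP (mob 2 3 1 2) 2 (-3) (-1) 2 (q + z, z, w / (1 - w)) =
          Tor (1 + mob 1 0 1 1 w) ((1 : ℤ) * q + (0 : ℤ) * z -
            ((-1 : ℤ) * q + (1 : ℤ) * z)) ((-1 : ℤ) * q + (1 : ℤ) * z) := by
        refine Tor_congr ?_ (congrArg ex (by push_cast; ring)) (congrArg ex (by push_cast; ring))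
        unfold mob
        have h7 : 1 + 2 * (w / (1 - w)) = (1 + 1 * w) / (1 - w) := by field_simp; ring
        have h8 : 2 + 3 * (w / (1 - w)) = (1 + 1 * w + (1 + 0 * w)) / (1 - w) := by
          field_simp; ring
        simp only
        rw [h7, h8, div_div_div_cancel_right₀ h3.ne', one_add_div (by linarith)]
      rw [h6]; exact h5⟩)
    colK1 (by norm_num [rr, mob]) (by norm_num [mob])
  have q1 : (fun q : ℝ => e1 (TP (mob 1 0 1 1) 1 0 (-1) 1 (q, π, 0))) =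
      fun q => (e1 ∘ Sol1) (ex q, π - q) := by
    funext q
    have : mob 1 0 1 1 0 = 1 := by norm_num [mob]
    simp only [TP, this, Function.comp]
    rw [Tor_eq_Sol1 one_pos]
    simp [sub_eq_neg_add]
  have q2 : (range fun q : ℝ => e2 (TP (mob 5 2 2 1) 5 (-2) (-2) 1 (q, π, 0))) = KC := by
    unfold KC
    congr 1
    funext q
    have h0 : mob 5 2 2 1 0 = 5 / 2 := by norm_num [mob]
    have h1 : TP (mob 5 2 2 1) 5 (-2) (-2) 1 (q, π, 0) =
        Sol1 ((√(2 / 5) : ℝ) * ex (5 * q), π - 2 * q) := by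
      simp only [TP, h0]
      rw [Tor_eq_Sol1 (by norm_num), inv_div, ex_congr (t := 5 * q)
        (s := (5 : ℤ) * q + (-2 : ℤ) * π) 1 (by push_cast; ring)]
      congr 2
      push_cast; ring
    rw [h1]
    have h2 : normSq ((√(2 / 5) : ℝ) * ex (5 * q)) = 2 / 5 := normSq_sqrt_ex (by norm_num) _
    generalize ((√(2 / 5) : ℝ) * ex (5 * q) : ℂ) = X at h2 ⊢
    generalize π - 2 * q = θ
    have h3 : ‖X‖ ≤ 1 := by
      rw [normSq_eq_norm_sq] at h2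
      nlinarith [norm_nonneg X]
    have b1 := norm_sub_norm_le (2 : ℂ) X
    have b3 : ‖(2 : ℂ)‖ = 2 := by simp
    have b5 : 2 - X ≠ 0 := norm_pos_iff.1 (by linarith)
    refine (sd.crelE.fun_r _ _ _ (he2 _ ?_) ⟨_, (hd.near X θ (by linarith)).1, ?_⟩).trans
      (?_ : Tor (rr 1 2 (normSq (2 - X))) (-arg (2 - X) - 3 * (θ + 2 * X.im))
        ((1 : ℤ) * arg (2 - X) + (2 : ℤ) * (θ + 2 * X.im)) = _)
    · rw [Sol1_gt_iff, h2]; norm_num [mob]
    · rw [Sol1_eq_Tor b5]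
      refine Kr_mk _ _ ?_
      rw [normSq_eq_norm_sq]
      push_cast
      nlinarith
    · simp [PP, rr]
  have tk : IsTorusKnot 3 (-11) fun q : ℝ => e1 (TP (mob 1 0 1 1) 1 0 (-1) 1 (q, π, 0)) := by
    rw [q1]
    have h1 : normSq (2 : ℂ) = 4 := by simp; norm_num
    have h2 : arg (2 : ℂ) = 0 := by simp
    have hp : ((4 : ℤ) : ℝ) < (11 : ℤ) * 4 := by norm_num
    have h3 : ∀ θ, (e1 ∘ Sol1) (0, θ) = Tor (rr 4 11 4) (-3 * θ) (11 * θ) := by
      intro θ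
      refine sd.symm.crelE.fun_r _ _ _ (he1 _ (by rw [Sol1_gt_iff]; simp))
        ⟨_, (hd.near 0 θ (by norm_num)).2, ?_⟩
      have h4 := Kr_mk (c := 4) (d := 11) (a := 4) 0 θ hp
      simp only [sub_zero, zero_im, mul_zero, add_zero]
      rw [Sol1_eq_Tor two_ne_zero, h1, h2]
      simpa using h4
    obtain ⟨c, hc, h5, -⟩ := Tor_spec (rr 4 11 4) 0 0
    have a3 := kd1.mpos hp
    have h6 : 0 < √(rr 4 11 4) := Real.sqrt_pos.2 a3
    refine knot17 _ _ c (c * √(rr 4 11 4)) (by norm_num [mob])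
      (sd.symm.emb (by norm_num [mob]) he1) hc (mul_pos hc h6) fun θ => ?_
    rw [h3]
    obtain ⟨c', hc', h7, h8⟩ := Tor_spec (rr 4 11 4) (-3 * θ) (11 * θ)
    have h9 : c' = c := by
      have a1 := normSq_add (Tor (rr 4 11 4) 0 0)
      have a2 := normSq_add (Tor (rr 4 11 4) (-3 * θ) (11 * θ))
      rw [(Tor_rho a3.le _ _).2] at a1 a2
      rw [h5, map_mul, normSq_ex, normSq_ofReal] at a1
      rw [h7, map_mul, normSq_ex, normSq_ofReal] at a2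
      have a4 : c' * c' = c * c := by
        apply mul_right_cancel₀ (b := 1 + rr 4 11 4) (by linarith)
        linarith
      nlinarith
    rw [h7, h8, h9]
    exact ⟨rfl, by push_cast; ring⟩
  refine ⟨_, _, leg1, leg2, tk, fun hiso => ?_, M, i1, i2, i3, i4, i5, α, fun m => ?_, sur1, sur2⟩
  swap
  · rcases hcov m with ⟨x, hx⟩ | ⟨y, hy⟩
    exacts [darboux_of_rel hA hx, darboux_of_rel hB hy]
  obtain ⟨τ, hτ, hiso2⟩ := tk
  obtain ⟨h1, e1'⟩ := iso _ _ hiso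
  obtain ⟨h2, e2'⟩ := iso _ _ hiso2
  rw [q2] at e1'
  rw [range_torus hτ] at e2'
  refine qup17 path17 two17 (Q17_homeo (h1.trans h2).symm ?_ (qlo17 ff17))
  rw [← e2', ← e1', ← image_comp, ← image_comp]
  simp

end Pool.Agent.MP_5d9d0b_gt.M1
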