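import Pool.Agent.MP_5d9d0b_gt.M1.Spec

/-!
From the tube lemma to the Legendrian surgery statement.
-/

namespace Pool.Agent.MP_5d9d0b_gt.M1

open scoped Manifold ContDiff Real Topology
open Set Filter Complex

theorem side17 : SideStmt := by
  intro M _ _ α iA iB XA XB H hA hB hcov hAB hH hHX η hη hη' ρM ρN a b c d a' b' c' d' hM hN
    Λ hΛ o2 o1 o3 κ δ hκ hδ o4 E hE eE heE f1 f2 f3 f4 f5 f6
  have := nonemptyS3
  have : Nonempty M := ⟨iA pt0⟩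
  have h00 : (0 : ℝ) ∈ Icc (-η) η := ⟨by linarith, hη.le⟩
  have hηη : η ∈ Icc (-η) η := ⟨by linarith, le_rfl⟩
  have hh : η / 2 ∈ Icc (-η) η := ⟨by linarith, by linarith⟩
  have hcc : ∀ {w : ℝ}, |w| < η → w ∈ Icc (-η) η := fun h => Ioo_subset_Icc_self (abs_lt.1 h)
  have hGeGt : ∀ n, Ge (ρN (η / 2)) n → Gt (ρN η) n := fun n hn =>
    hn.gt (hN.anti hh hηη (by linarith))
  let T : Set S3 := {y | ∃ n ∈ {n | Ge (ρN (η / 2)) n}, E n y}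
  have hT : IsClosed T :=
    (hE.isCompact_image (isClosed_Ge _).isCompact fun n hn => ⟨_, heE n (hGeGt n hn)⟩).isClosed
  have hTB : ∀ y, y ∉ T → y ∈ XB := fun y hy => by
    by_contra h; exact hy (f3 y h)
  have hiA : ∀ x ∈ XA, ∀ x' ∈ XA, iA x = iA x' → x = x' := fun x hx x' hx' e =>
    hA.fun_l x x' (iA x) ⟨hx, rfl⟩ ⟨hx', e⟩
  have hMgt : ∀ q z w, |w| < η → Gt (ρM η) (TP ρM a b c d (q, z, w)) := fun q z w hw =>
    (hM.gt_iff q z (hcc hw) hηη).2 (abs_lt.1 hw).2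
  have hNgt : ∀ q z w, |w| < η → Gt (ρN η) (TP ρN a' b' c' d' (q, z, w)) := fun q z w hw =>
    (hN.gt_iff q z (hcc hw) hηη).2 (abs_lt.1 hw).2
  have h0η : |(0 : ℝ)| < η := by simpa using hη
  have hR1 := hB.symm.restr_r hT.isOpen_compl
  have hR2 := (hA.symm.comp hΛ.symm).comp hE
  have hR := hR1.union hR2 (by
      rintro m y y' ⟨hy, hyB, rfl⟩ ⟨n, ⟨x, ⟨hx, e⟩, hΛx⟩, hEn⟩
      have h1 : H x y := (hAB x hx y hyB).1 e.symm
      have h2 : ¬ Gt (ρM (η / 2)) x := fun h => hy (f6 x y h1 h.ge)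
      obtain ⟨q, z, w, h3, h4, rfl⟩ := hM.band hh ((o1 x).1 ⟨n, hΛx⟩).1 h2
      obtain rfl := hΛ.fun_l _ _ _ hΛx (o3 q z w (by linarith) h4)
      exact hH.fun_r _ _ _ h1 (f1 q z w y' (abs_lt.2 ⟨by linarith, h4⟩) hEn))
    (by
      rintro m m' y ⟨hy, hyB, rfl⟩ ⟨n, ⟨x, ⟨hx, rfl⟩, hΛx⟩, hEn⟩
      have h2 : ¬ Gt (ρN (η / 2)) n := fun h => hy ⟨n, h.ge, hEn⟩
      obtain ⟨q, z, w, h3, h4, rfl⟩ := hN.band hh ((o2 n).1 ⟨x, hΛx⟩).1 h2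
      obtain rfl := hΛ.fun_r _ _ _ hΛx (o3 q z w (by linarith) h4)
      exact ((hAB _ hx y hyB).2 (f1 q z w y (abs_lt.2 ⟨by linarith, h4⟩) hEn)).symm)
  obtain ⟨Φ, hsrc, htgt, hΦ, hΦc⟩ := hR.symm.exists_pd
  have hκ' : 0 < η / (2 * κ) := by positivity
  let j : R3 → S3 := fun p => eE (TP ρN a' b' c' d' (p 0 + 0, π + 1 * p 1, 1 * p 2))
  let j' : R3 → M := fun p =>
    iA (TP ρM a b c d (p 0 + -(π / 2), π + 2 * κ * p 1, -κ * p 2))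
  have hδ1 : 0 < min δ η := lt_min hδ hη
  have t1 : ∀ p ∈ tube (min δ η), |1 * p 1| < η ∧ |1 * p 2| < η := fun p hp => by
    simp only [one_mul]
    exact ⟨lt_of_lt_of_le (tube_abs hδ1 hp).1 (min_le_right _ _),
      lt_of_lt_of_le (tube_abs hδ1 hp).2 (min_le_right _ _)⟩
  have t2 : ∀ p ∈ tube (η / (2 * κ)), |2 * κ * p 1| < η ∧ |-κ * p 2| < η := fun p hp => by
    obtain ⟨h1, h2⟩ := tube_abs hκ' hp
    rw [lt_div_iff₀ (by positivity)] at h1 h2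
    simp only [abs_mul, abs_neg, abs_of_pos hκ, abs_two]
    exact ⟨by linarith, by nlinarith [abs_nonneg (p 2)]⟩
  have l1 : ∀ p ∈ tube (min δ η), LP (E := R3) (pull att) alphaSt j p := by
    intro p hp
    have h1 := (affine_lp (β := pull att) 0 1 1 1 one_ne_zero one_ne_zero one_pos p fun v => by
      rw [pull_att]; ring).comp (hN.lp _ (t1 p hp).2)
    refine h1.rel hE ?_
    filter_upwards [(isOpen_tube _).mem_nhds hp] with x hx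
    exact heE _ (hNgt _ _ _ (t1 x hx).2)
  have l2 : ∀ p ∈ tube (η / (2 * κ)), LP (E := R3) (pull belt) α j' p := by
    intro p hp
    have h1 := (affine_lp (β := pull belt) (-(π / 2)) (2 * κ) (-κ) κ (by positivity)
      (neg_ne_zero.2 hκ.ne') hκ p fun v => by rw [pull_belt]; ring).comp (hM.lp _ (t2 p hp).2)
    refine h1.rel hA ?_
    filter_upwards [(isOpen_tube _).mem_nhds hp] with x hx
    exact ⟨f2 _ (hMgt _ _ _ (t2 x hx).2), rfl⟩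
  have hcore : core j' = range fun q : ℝ => iA (TP ρM a b c d (q, π, 0)) := by
    ext y
    constructor
    · rintro ⟨q, rfl⟩
      exact ⟨q + -(π / 2), by simp [j']⟩
    · rintro ⟨q, rfl⟩
      exact ⟨q + π / 2, by simp [j']⟩
  have hL : ∀ y, y ∈ (range fun q : ℝ => eE (TP ρN a' b' c' d' (q, π, 0))) ↔
      ∃ q, E (TP ρN a' b' c' d' (q, π, 0)) y := fun y =>
    ⟨fun ⟨q, hq⟩ => ⟨q, hq ▸ heE _ (hNgt _ _ _ h0η)⟩,
      fun ⟨q, hq⟩ => ⟨q, hE.fun_r _ _ _ (heE _ (hNgt _ _ _ h0η)) hq⟩⟩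
  refine ⟨min δ η, η / (2 * κ), j, j', Φ, hδ1, hκ', ⟨fun p => (l1 p p.2).1, fun p hp => (l1 p hp).2,
    fun p hp p' hp' => ?_⟩, ⟨fun p => (l2 p p.2).1, fun p hp => (l2 p hp).2,
    fun p hp p' hp' => ?_⟩, ?_, ?_, ?_, hΦc, ?_⟩
  · rw [att_eq_iff]
    constructor
    · intro e
      have e' := hE.fun_l _ _ _ (heE _ (hNgt _ _ _ (t1 p hp).2))
        (show E _ (j p) by rw [e]; exact heE _ (hNgt _ _ _ (t1 p' hp').2))
      obtain ⟨h1, ⟨k, h2⟩, l, h3⟩ := hN.inj (hcc (t1 p hp).2) (hcc (t1 p' hp').2) e'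
      refine ⟨ex_congr k (by linarith), ?_, by linarith⟩
      have := small_int (k := l) ((t1 p hp).1.le.trans (by linarith))
        ((t1 p' hp').1.le.trans (by linarith)) (by linarith)
      linarith
    · rintro ⟨h1, h2, h3⟩
      obtain ⟨k, hk⟩ := ex_eq_iff.1 h1
      exact congrArg eE (TP_congr _ _ _ _ ⟨k, by linarith⟩ ⟨0, by simp [h2]⟩ (by rw [h3]))
  · rw [belt_eq_iff]
    constructor
    · intro e
      obtain ⟨h1, ⟨k, h2⟩, l, h3⟩ := hM.inj (hcc (t2 p hp).2) (hcc (t2 p' hp').2)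
        (hiA _ (f2 _ (hMgt _ _ _ (t2 p hp).2)) _ (f2 _ (hMgt _ _ _ (t2 p' hp').2)) e)
      refine ⟨ex_congr k (by linarith), ?_, mul_left_cancel₀ (neg_ne_zero.2 hκ.ne') h1⟩
      have := small_int (k := l) ((t2 p hp).1.le.trans (by linarith))
        ((t2 p' hp').1.le.trans (by linarith)) (by linarith)
      exact mul_left_cancel₀ (by positivity) this
    · rintro ⟨h1, h2, h3⟩
      obtain ⟨k, hk⟩ := ex_eq_iff.1 h1
      exact congrArg iA (TP_congr _ _ _ _ ⟨k, by linarith⟩ ⟨0, by simp [h2]⟩ (by rw [h3]))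
  · unfold core; congr 1; funext q; simp [j]
  · rw [hsrc]
    ext y
    rw [mem_compl_iff, hL]
    constructor
    · rintro ⟨m, ⟨hy, -⟩ | ⟨n, ⟨x, -, hΛx⟩, hEn⟩⟩ ⟨q, hq⟩
      · exact hy ⟨_, (hN.ge_iff _ _ h00 hh).2 (by linarith), hq⟩
      · exact ((o2 n).1 ⟨x, hΛx⟩).2 q (hE.fun_l _ _ _ hEn hq)
    · intro hy
      by_cases h1 : y ∈ T
      · obtain ⟨n, hn, hEn⟩ := h1
        obtain ⟨x, hx⟩ := (o2 n).2 ⟨hGeGt n hn, fun q e => hy ⟨q, e ▸ hEn⟩⟩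
        exact ⟨iA x, Or.inr ⟨n, ⟨x, ⟨f2 x ((o1 x).1 ⟨n, hx⟩).1, rfl⟩, hx⟩, hEn⟩⟩
      · exact ⟨iB y, Or.inl ⟨h1, hTB y h1, rfl⟩⟩
  · rw [htgt, hcore]
    have key : ∀ x, Gt (ρM η) x → iA x ∉ (range fun q : ℝ => iA (TP ρM a b c d (q, π, 0))) →
        ∃ y n, (∃ x', (x' ∈ XA ∧ iA x = iA x') ∧ Λ n x') ∧ E n y := by
      intro x hx hm
      obtain ⟨n, hn⟩ := (o1 x).2 ⟨hx, fun q e => hm ⟨q, by rw [e]⟩⟩
      exact ⟨_, n, ⟨x, ⟨f2 x hx, rfl⟩, hn⟩, heE n ((o2 n).1 ⟨x, hn⟩).1⟩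
    ext m
    constructor
    · rintro ⟨y, ⟨hy, hyB, rfl⟩ | ⟨n, ⟨x, ⟨hx, rfl⟩, hΛx⟩, hEn⟩⟩ ⟨q, hq⟩
      · exact hy (f6 _ y ((hAB _ (f2 _ (hMgt _ _ _ h0η)) y hyB).1 hq)
          ((hM.ge_iff _ _ h00 hh).2 (by linarith)))
      · exact ((o1 x).1 ⟨n, hΛx⟩).2 q (hiA _ (f2 _ (hMgt _ _ _ h0η)) _ hx hq).symm
    · intro hm
      rcases hcov m with ⟨x, hx, rfl⟩ | ⟨y, hy, rfl⟩
      · by_cases h1 : Gt (ρM η) x
        · obtain ⟨y, hy⟩ := key x h1 hm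
          exact ⟨y, Or.inr hy⟩
        · obtain ⟨y, hy⟩ := f5 x hx h1
          refine ⟨y, Or.inl ⟨?_, hHX x y hy, (hAB x hx y (hHX x y hy)).2 hy⟩⟩
          rintro ⟨n, hn, hEn⟩
          obtain ⟨x', h2, h3⟩ := f4 y (hHX x y hy) n hn hEn
          exact h1 (hH.fun_l _ _ _ h3 hy ▸ h2)
      · by_cases h1 : y ∈ T
        · obtain ⟨n, hn, hEn⟩ := h1
          obtain ⟨x, h2, h3⟩ := f4 y hy n hn hEn
          have h4 := (hAB x (f2 x h2) y hy).2 h3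
          rw [← h4] at hm ⊢
          obtain ⟨y', hy'⟩ := key x h2 hm
          exact ⟨y', Or.inr hy'⟩
        · exact ⟨y, Or.inl ⟨h1, hy, rfl⟩⟩
  · intro p hp p' hp' t ht
    obtain ⟨r, σ, hr, h1, h2, h3, h4, h5⟩ := flow_polar ht
    have hrδ : r < δ := by
      have h6 : p 1 ^ 2 + p 2 ^ 2 < min δ η ^ 2 := hp
      have h7 : p 1 ^ 2 + p 2 ^ 2 = r ^ 2 := by
        rw [h1, h2]; linear_combination r ^ 2 * Real.cos_sq_add_sin_sq σ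
      rw [h7] at h6
      exact lt_of_lt_of_le (lt_of_pow_lt_pow_left₀ 2 hδ1.le h6) (min_le_left _ _)
    have h8 := o4 (p 0) r σ hr hrδ
    have h9 : ((p 0, π + r * Real.cos σ, r * Real.sin σ) : E3) =
        (p 0 + 0, π + 1 * p 1, 1 * p 2) := by rw [h1, h2]; simp
    have h10 : ((p 0 + σ - π / 2, π + 2 * κ * √r * Real.cos σ, κ * √r * Real.sin σ) : E3) =
        (p' 0 + -(π / 2), π + 2 * κ * p' 1, -κ * p' 2) := by
      rw [h3, h4, h5]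
      exact Prod.ext (by ring) (Prod.ext (by ring) (by ring))
    rw [h9, h10] at h8
    exact hΦ _ _ (Or.inr ⟨_, ⟨_, ⟨f2 _ (hMgt _ _ _ (t2 p' hp').2), rfl⟩, h8⟩,
      heE _ (hNgt _ _ _ (t1 p hp).2)⟩)

end Pool.Agent.MP_5d9d0b_gt.M1
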