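import Pool.Agent.MP_5d9d0b_gt.Bridge

/-!
Module statements for the Legendrian surgery counterexample (slope `-1`).
-/

namespace Pool.Agent.MP_5d9d0b_gt.M1

open scoped Manifold ContDiff Real Topology ComplexConjugate
open Set

/-- `(M, ker α)` is Legendrian surgery on `L` (working form). -/
def IsMinusOneSurgery {M : Type} [TopologicalSpace M] [ChartedSpace R3 M] (L : Set S3)
    (α : (x : M) → TangentSpace (𝓡 3) x → ℝ) : Prop :=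
  ∃ (δ δ' : ℝ) (j : R3 → S3) (j' : R3 → M) (Φ : PartialDiffeomorph (𝓡 3) (𝓡 3) S3 M ∞),
    0 < δ ∧ 0 < δ' ∧ StdNbhd att alphaSt δ j ∧ StdNbhd belt α δ' j' ∧ core j = L ∧
    Φ.source = Lᶜ ∧ Φ.target = (core j')ᶜ ∧ (∀ x ∈ Φ.source, ContactAt alphaSt α Φ x) ∧
    ∀ p ∈ tube δ, ∀ p' ∈ tube δ', ∀ t : ℝ, handleFlow t (att p) = belt p' → Φ (j p) = j' p'

/-! ### Row SIDE: mirror image of `side` -/

def SideStmt : Prop :=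
  ∀ (M : Type) [TopologicalSpace M] [ChartedSpace R3 M]
    (α : (x : M) → TangentSpace (𝓡 3) x → ℝ) (iA iB : S3 → M) (XA XB : Set S3)
    (H : S3 → S3 → Prop), CRel alphaSt α (fun x m => x ∈ XA ∧ m = iA x) →
    CRel alphaSt α (fun y m => y ∈ XB ∧ m = iB y) →
    (∀ m, (∃ x ∈ XA, m = iA x) ∨ ∃ y ∈ XB, m = iB y) →
    (∀ x ∈ XA, ∀ y ∈ XB, (iA x = iB y ↔ H x y)) →
    CRel alphaSt alphaSt H → (∀ x y, H x y → y ∈ XB) →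
    ∀ η : ℝ, 0 < η → η ≤ 1 / 10 →
    ∀ (ρM ρN : ℝ → ℝ) (a b c d a' b' c' d' : ℤ), TCol η ρM a b c d → TCol η ρN a' b' c' d' →
    ∀ Λ : S3 → S3 → Prop, CRel alphaSt alphaSt Λ →
    (∀ n, (∃ x, Λ n x) ↔ Gt (ρN η) n ∧ ∀ q, n ≠ TP ρN a' b' c' d' (q, π, 0)) →
    (∀ x, (∃ n, Λ n x) ↔ Gt (ρM η) x ∧ ∀ q, x ≠ TP ρM a b c d (q, π, 0)) →
    (∀ q z w, η / 4 ≤ w → w < η → Λ (TP ρN a' b' c' d' (q, z, w)) (TP ρM a b c d (q, z, w))) →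
    ∀ κ δ : ℝ, 0 < κ → 0 < δ →
    (∀ q r σ : ℝ, 0 < r → r < δ → Λ (TP ρN a' b' c' d' (q, π + r * Real.cos σ, r * Real.sin σ))
      (TP ρM a b c d (q + σ - π / 2, π + 2 * κ * √r * Real.cos σ, κ * √r * Real.sin σ))) →
    ∀ E : S3 → S3 → Prop, CRel alphaSt alphaSt E → ∀ eE : S3 → S3,
    (∀ n, Gt (ρN η) n → E n (eE n)) →
    (∀ q z w y, |w| < η → E (TP ρN a' b' c' d' (q, z, w)) y → H (TP ρM a b c d (q, z, w)) y) →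
    (∀ x, Gt (ρM η) x → x ∈ XA) →
    (∀ y, y ∉ XB → ∃ n, Ge (ρN (η / 2)) n ∧ E n y) →
    (∀ y ∈ XB, ∀ n, Ge (ρN (η / 2)) n → E n y → ∃ x, Gt (ρM η) x ∧ H x y) →
    (∀ x ∈ XA, ¬ Gt (ρM η) x → ∃ y, H x y) →
    (∀ x y, H x y → Ge (ρM (η / 2)) x → ∃ n, Ge (ρN (η / 2)) n ∧ E n y) →
    IsMinusOneSurgery (range fun q : ℝ => eE (TP ρN a' b' c' d' (q, π, 0))) α

/-! ### Row HH: the half twist about `x = 1` -/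

def HhStmt : Prop :=
  ∃ Hh : S3 → S3 → Prop, CRel alphaSt alphaSt Hh ∧
    (∀ n n1, Hh n n1 → z2 n ≠ 0 ∧ z2 n1 ≠ 0) ∧
    (∀ n, z2 n ≠ 0 → (∃ n1, Hh n n1) ∧ ∃ n1, Hh n1 n) ∧
    (∀ p : C3, 16 ≤ Complex.normSq p.1 → Hh (Sol1 p) (Sol1 p)) ∧
    ∀ (X : ℂ) (θ : ℝ), ‖X‖ ≤ 11 / 10 →
      Hh (Sol1 (X, θ)) (Sol1 (2 - X, θ + 2 * X.im)) ∧
      Hh (Sol1 (2 - X, θ + 2 * X.im)) (Sol1 (X, θ))

/-! ### Row KN: the knot type of `L` -/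

def KnotStmt : Prop :=
  ∀ (a : ℝ) (P : ℂ × ℝ → S3) (r1 r2 : ℝ), 1 < a → Emb a P → 0 < r1 → 0 < r2 →
    (∀ θ : ℝ, z1 (P (0, θ)) = (r1 : ℝ) * ex (-3 * θ) ∧ z2 (P (0, θ)) = (r2 : ℝ) * ex (11 * θ)) →
    IsTorusKnot 3 (-11) (fun q => P (ex q, π - q))

/-! ### The dihedral invariant -/

/-- The covering `(a, b) ↦ (a b, a¹⁷ + b¹⁷)`, unbranched over `s² ≠ 4 v¹⁷`. -/
def Pi17 (e : ℂ × ℂ) : ℂ × ℂ := (e.1 * e.2, e.1 ^ 17 + e.2 ^ 17)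

/-- The complement of `K` maps to the base of `Pi17` so that two loops at a common point have
non-commuting monodromy. -/
def Q17 (K : Set S3) : Prop :=
  ∃ (f : S3 → ℂ × ℂ) (γ δ : ℝ → S3) (A1 A2 B1 B2 : ℝ → ℂ × ℂ),
    ContinuousOn f Kᶜ ∧ (∀ x ∉ K, (f x).2 ^ 2 ≠ 4 * (f x).1 ^ 17) ∧
    Continuous γ ∧ Continuous δ ∧ (∀ t, γ t ∉ K) ∧ (∀ t, δ t ∉ K) ∧
    γ 1 = γ 0 ∧ δ 0 = γ 0 ∧ δ 1 = γ 0 ∧
    Continuous A1 ∧ Continuous A2 ∧ Continuous B1 ∧ Continuous B2 ∧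
    (∀ t, Pi17 (A1 t) = f (γ t)) ∧ (∀ t, Pi17 (A2 t) = f (γ t)) ∧
    (∀ t, Pi17 (B1 t) = f (δ t)) ∧ (∀ t, Pi17 (B2 t) = f (δ t)) ∧
    A1 0 = B1 0 ∧ B2 0 = A1 1 ∧ A2 0 = B1 1 ∧ B2 1 ≠ A2 1

/-- The standard torus knot `T(3,-11)`. -/
def K311 : Set S3 :=
  {x | ∃ t : ℝ, z1 x = ((√2)⁻¹ : ℝ) * ex (3 * t) ∧ z2 x = ((√2)⁻¹ : ℝ) * ex (-11 * t)}

/-- The unbranched locus. -/
def good : Set (ℂ × ℂ) := {y | y.2 ^ 2 ≠ 4 * y.1 ^ 17}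

/-- A system of markings of the fibres, well defined up to powers of `ξ`. -/
structure Mark {X F : Type} (f : X → ℂ × ℂ) (ξ : Equiv.Perm F) (Θ : X → Set (F → ℂ × ℂ)) :
    Prop where
  inj : ∀ x, ∀ θ ∈ Θ x, Function.Injective θ
  lift : ∀ x, ∀ θ ∈ Θ x, ∀ e, Pi17 (θ e) = f x
  surj : ∀ x, ∀ θ ∈ Θ x, ∀ a, Pi17 a = f x → ∃ e, θ e = a
  orb : ∀ x, ∀ θ ∈ Θ x, ∀ θ' ∈ Θ x, ∃ k : ℤ, ∀ e, θ' e = θ ((ξ ^ k) e)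

/-- Row TWO, first half: port of `QUp.path`. -/
def PathStmt : Prop :=
  ∀ (X F : Type) (f : X → ℂ × ℂ) (ξ : Equiv.Perm F) (Θ : X → Set (F → ℂ × ℂ)), Mark f ξ Θ →
    ∀ γ : ℝ → X, QUp.Loc Θ γ → (∀ t, f (γ t) ∈ good) →
    ∀ A1 A2 : ℝ → ℂ × ℂ, Continuous A1 → Continuous A2 →
    (∀ t, Pi17 (A1 t) = f (γ t)) → (∀ t, Pi17 (A2 t) = f (γ t)) →
    ∀ θ : F → ℂ × ℂ, θ ∈ Θ (γ 0) → θ ∈ Θ (γ 1) → ∀ u1 u2 v1 v2 : F,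
    θ u1 = A1 0 → θ u2 = A2 0 → θ v1 = A1 1 → θ v2 = A2 1 →
    ∃ k : ℤ, (ξ ^ k) u1 = v1 ∧ (ξ ^ k) u2 = v2

/-- Row TWO, second half: port of `QUp.two` with exponents `3` and `-11`. -/
def TwoStmt : Prop :=
  ∀ (X D1 D2 D0 : Type) [TopologicalSpace D1] [SimplyConnectedSpace D1]
    [LocallyPathConnectedSpace D1] [TopologicalSpace D2] [SimplyConnectedSpace D2]
    [LocallyPathConnectedSpace D2] [TopologicalSpace D0] [PreconnectedSpace D0]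
    (f : X → ℂ × ℂ) (P1 : D1 → X) (P2 : D2 → X),
    (Continuous fun d => f (P1 d)) → (Continuous fun d => f (P2 d)) →
    (∀ d, f (P1 d) ∈ good) → (∀ d, f (P2 d) ∈ good) →
    ∀ T1 : ℤ → D1 → D1, (∀ k, Continuous (T1 k)) → (∀ d, T1 0 d = d) →
    (∀ k l d, T1 (k + l) d = T1 k (T1 l d)) → (∀ d d', P1 d = P1 d' ↔ ∃ k, d' = T1 k d) →
    ∀ T2 : ℤ → D2 → D2, (∀ k, Continuous (T2 k)) → (∀ d, T2 0 d = d) →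
    (∀ k l d, T2 (k + l) d = T2 k (T2 l d)) → (∀ d d', P2 d = P2 d' ↔ ∃ k, d' = T2 k d) →
    ∀ (j1 : D0 → D1) (j2 : D0 → D2), Continuous j1 → Continuous j2 →
    (∀ d, P1 (j1 d) = P2 (j2 d)) → (∀ d1 d2, P1 d1 = P2 d2 → ∃ d, P1 (j1 d) = P1 d1) →
    ∀ o o' : D0, T1 3 (j1 o) = j1 o' → T2 (-11) (j2 o) = j2 o' →
    ∃ (F : Type) (ξ : Equiv.Perm F) (Θ : X → Set (F → ℂ × ℂ)), Mark f ξ Θ ∧
      ∀ γ : ℝ → X, (∀ t0, (∃ s : ℝ → D1, ContinuousAt s t0 ∧ ∀ᶠ t in 𝓝 t0, P1 (s t) = γ t) ∨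
        ∃ s : ℝ → D2, ContinuousAt s t0 ∧ ∀ᶠ t in 𝓝 t0, P2 (s t) = γ t) → QUp.Loc Θ γ

/-- Row UP. -/
def QUpStmt : Prop := PathStmt → TwoStmt → ¬ Q17 K311

/-- The tube round the torus knot `T(3,-2)`. -/
noncomputable def PP (p : ℂ × ℝ) : S3 :=
  Tor (mob (-1) 3 (-1) 2 (Complex.normSq (2 - p.1)))
    (-Complex.arg (2 - p.1) - 3 * (p.2 + 2 * p.1.im))
    (Complex.arg (2 - p.1) + 2 * (p.2 + 2 * p.1.im))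

/-- The cable knot. -/
def KC : Set S3 := range fun q : ℝ => PP ((√(2 / 5) : ℝ) * ex (5 * q), π - 2 * q)

/-- The real seventeenth root. -/
noncomputable def r17 (x : ℝ) : ℝ := x ^ (((17 : ℕ) : ℝ)⁻¹)

/-- The phase correction. -/
noncomputable def ps (X : ℂ) : ℝ := (3 * Complex.arg (2 - X) + 12 * X.im) / 17

/-- The map to the base of the covering, read in the tube. -/
noncomputable def FT (p : ℂ × ℝ) : ℂ × ℂ :=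
  (-(r17 ((1 - Complex.normSq p.1) / 6) : ℝ) * ex p.2 * ex (ps p.1) ^ 2,
    -(conj p.1 * ex (6 * p.2)) * ex (ps p.1) ^ 17)

/-- Row FF. -/
def FStmt : Prop :=
  ∃ f : S3 → ℂ × ℂ, Continuous f ∧
    (∀ x, (f x).2 ^ 2 = 4 * (f x).1 ^ 17 → ∃ p : ℂ × ℝ, ‖p.1‖ ≤ 1 ∧ x = PP p) ∧
    ∀ p : ℂ × ℝ, ‖p.1‖ ≤ 1 → f (PP p) = FT p

/-- Row LO. -/
def QLoStmt : Prop := FStmt → Q17 KC

end Pool.Agent.MP_5d9d0b_gt.M1
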